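import Mathlib

namespace Pool.Agent.HTn

open Encodable

/-- predicates on the naturals given by at most k number quantifiers (prenex, any order)
over a computable matrix -/
def Ar : ℕ → (ℕ → Prop) → Prop
  | 0, P => ∃ f : ℕ → Bool, Computable f ∧ ∀ a, P a ↔ f a = true
  | k + 1, P => ∃ Q, Ar k Q ∧
      ((∀ a, P a ↔ ∃ y, Q (Nat.pair a y)) ∨ (∀ a, P a ↔ ∀ y, Q (Nat.pair a y)))

theorem Ar.congr {k : ℕ} {P Q : ℕ → Prop} (h : Ar k P) (hPQ : ∀ a, Q a ↔ P a) : Ar k Q := by
  have : Q = P := funext fun a => propext (hPQ a)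
  rwa [this]

theorem Ar.not {k : ℕ} : ∀ {P : ℕ → Prop}, Ar k P → Ar k (fun a => ¬ P a) := by
  induction k with
  | zero =>
    rintro P ⟨f, hf, h⟩
    refine ⟨fun a => !(f a), Primrec.not.to_comp.comp hf, fun a => ?_⟩
    simp [h]
  | succ k ih =>
    rintro P ⟨Q, hQ, h⟩
    refine ⟨_, ih hQ, ?_⟩
    rcases h with h | h
    · right
      intro a
      simp [h]
    · left
      intro a
      simp [h]

theorem Ar.subst {k : ℕ} : ∀ {P : ℕ → Prop} {g : ℕ → ℕ}, Computable g → Ar k P →
    Ar k (fun a => P (g a)) := by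
  induction k with
  | zero =>
    rintro P g hg ⟨f, hf, h⟩
    exact ⟨fun a => f (g a), hf.comp hg, fun a => h (g a)⟩
  | succ k ih =>
    rintro P g hg ⟨Q, hQ, h⟩
    have hg' : Computable (fun m : ℕ => Nat.pair (g m.unpair.1) m.unpair.2) :=
      Primrec₂.natPair.to_comp.comp (hg.comp (Computable.fst.comp Computable.unpair))
        (Computable.snd.comp Computable.unpair)
    refine ⟨_, ih hg' hQ, ?_⟩
    rcases h with h | h
    · left
      intro a
      simp [h]
    · right
      intro a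
      simp [h]

theorem Ar.succ {k : ℕ} {P : ℕ → Prop} (h : Ar k P) : Ar (k + 1) P := by
  refine ⟨fun m => P m.unpair.1, h.subst (Computable.fst.comp Computable.unpair), Or.inl ?_⟩
  intro a
  simp

theorem Ar.mono {k l : ℕ} (hkl : k ≤ l) {P : ℕ → Prop} (h : Ar k P) : Ar l P := by
  induction hkl with
  | refl => exact h
  | step _ ih => exact ih.succ

theorem Ar.and_zero {l : ℕ} : ∀ {P Q : ℕ → Prop}, Ar 0 P → Ar l Q → Ar l (fun a => P a ∧ Q a) := by
  induction l with
  | zero =>
    rintro P Q ⟨f, hf, h⟩ ⟨g, hg, h'⟩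
    refine ⟨fun a => f a && g a, Primrec.and.to_comp.comp hf hg, fun a => ?_⟩
    simp [h, h']
  | succ l ih =>
    rintro P Q hP ⟨R, hR, h⟩
    refine ⟨_, ih (hP.subst (Computable.fst.comp Computable.unpair)) hR, ?_⟩
    rcases h with h | h
    · left
      intro a
      simp [h]
    · right
      intro a
      simp only [Nat.unpair_pair]
      rw [h]
      constructor
      · intro h1 y; exact ⟨h1.1, h1.2 y⟩
      · intro h1; exact ⟨(h1 0).1, fun y => (h1 y).2⟩

theorem Ar.and {k l : ℕ} : ∀ {P Q : ℕ → Prop}, Ar k P → Ar l Q →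
    Ar (k + l) (fun a => P a ∧ Q a) := by
  induction k with
  | zero =>
    intro P Q hP hQ
    rw [zero_add]
    exact hP.and_zero hQ
  | succ k ih =>
    rintro P Q ⟨R, hR, h⟩ hQ
    rw [add_right_comm]
    refine ⟨_, ih hR (hQ.subst (Computable.fst.comp Computable.unpair)), ?_⟩
    rcases h with h | h
    · left
      intro a
      simp [h]
    · right
      intro a
      simp only [Nat.unpair_pair]
      rw [h]
      constructor
      · intro h1 y; exact ⟨h1.1 y, h1.2⟩
      · intro h1; exact ⟨fun y => (h1 y).1, (h1 0).2⟩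

theorem Ar.ex {k : ℕ} {P : ℕ → Prop} (h : Ar k P) : Ar (k + 1) (fun a => ∃ y, P (Nat.pair a y)) :=
  ⟨P, h, Or.inl fun _ => Iff.rfl⟩

section Sig

/-- the alternating quantifier prefix of the problem -/
def SigT (R : List ℕ → Prop) (n : ℕ) : List ℕ → Prop :=
  Nat.rec (motive := fun _ => List ℕ → Prop) R (fun _ T l => ∃ y : ℕ, ¬ T (y :: l)) n

theorem SigT_succ (R : List ℕ → Prop) (n : ℕ) (l : List ℕ) :
    SigT R (n + 1) l ↔ ∃ y, ¬ SigT R n (y :: l) := Iff.rfl

def Sig (n : ℕ) (Q : List ℕ → Prop) : Prop :=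
  ∃ R : List ℕ → Prop, ComputablePred R ∧ ∀ l, Q l ↔ SigT R n l

theorem Sig_zero {Q : List ℕ → Prop} (h : ComputablePred Q) : Sig 0 Q := ⟨Q, h, fun _ => Iff.rfl⟩

theorem Sig_succ {n : ℕ} {Q : List ℕ → Prop} {T : List ℕ → Prop} (hT : Sig n T)
    (h : ∀ l, Q l ↔ ∃ y, ¬ T (y :: l)) : Sig (n + 1) Q := by
  obtain ⟨R, hR, h'⟩ := hT
  refine ⟨R, hR, fun l => ?_⟩
  rw [h, SigT_succ]
  simp only [h']

theorem Sig_succ_iff {n : ℕ} {Q : List ℕ → Prop} (hQ : Sig (n + 1) Q) :
    ∃ T, Sig n T ∧ ∀ l, Q l ↔ ∃ y, ¬ T (y :: l) := by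
  obtain ⟨R, hR, h'⟩ := hQ
  exact ⟨SigT R n, ⟨R, hR, fun _ => Iff.rfl⟩, h'⟩

theorem Sig_mono1 {n : ℕ} : ∀ {Q : List ℕ → Prop}, Sig n Q → Sig (n + 1) Q := by
  induction n with
  | zero =>
    rintro Q ⟨R, hR, h⟩
    obtain ⟨f, hf, rfl⟩ := ComputablePred.computable_iff.1 hR
    refine Sig_succ (T := fun l => ¬ (f l.tail = true)) (Sig_zero ?_) ?_
    · refine ComputablePred.computable_iff.2 ⟨fun l => !(f l.tail),
        Primrec.not.to_comp.comp (hf.comp Primrec.list_tail.to_comp), ?_⟩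
      funext l
      simp
    · intro l
      rw [h]
      simp [SigT]
  | succ n ih =>
    intro Q hQ
    obtain ⟨T, hT, h⟩ := Sig_succ_iff hQ
    exact Sig_succ (ih hT) h

theorem Sig_mono {n m : ℕ} (h : n ≤ m) {Q : List ℕ → Prop} (hQ : Sig n Q) : Sig m Q := by
  induction h with
  | refl => exact hQ
  | step _ ih => exact Sig_mono1 ih

/-- substitution by a computable function acting on lists -/
theorem Sig_of_Ar {k : ℕ} : ∀ {P : ℕ → Prop}, Ar k P → ∀ {g : List ℕ → ℕ}, Computable g →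
    Sig (2 * k) (fun l => P (g l)) ∧ Sig (2 * k) (fun l => ¬ P (g l)) := by
  induction k with
  | zero =>
    rintro P ⟨f, hf, h⟩ g hg
    constructor
    · apply Sig_zero
      refine ComputablePred.computable_iff.2 ⟨fun l => f (g l), hf.comp hg, ?_⟩
      funext l
      simp [h]
    · apply Sig_zero
      refine ComputablePred.computable_iff.2 ⟨fun l => !(f (g l)),
        Primrec.not.to_comp.comp (hf.comp hg), ?_⟩
      funext l
      simp [h]
  | succ k ih =>
    intro P hP g hg
    -- first the existential case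
    have key : ∀ {P Q : ℕ → Prop}, Ar k Q → (∀ a, P a ↔ ∃ y, Q (Nat.pair a y)) →
        Sig (2 * (k + 1)) (fun l => P (g l)) ∧ Sig (2 * (k + 1)) (fun l => ¬ P (g l)) := by
      intro P Q hQ h
      have hg' : Computable (fun l : List ℕ => Nat.pair (g l.tail) l.headI) :=
        Primrec₂.natPair.to_comp.comp (hg.comp Primrec.list_tail.to_comp)
          Primrec.list_headI.to_comp
      have h1 := (ih hQ hg').2
      have h2 : Sig (2 * k + 1) (fun l => P (g l)) := by
        refine Sig_succ h1 ?_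
        intro l
        simp [h]
      refine ⟨Sig_mono1 h2, ?_⟩
      have h3 : Sig (2 * k + 1) (fun l : List ℕ => P (g l.tail)) := by
        have hg'' : Computable (fun l : List ℕ => Nat.pair (g l.tail.tail) l.headI) :=
          Primrec₂.natPair.to_comp.comp
            ((hg.comp Primrec.list_tail.to_comp).comp Primrec.list_tail.to_comp)
            Primrec.list_headI.to_comp
        have h1 := (ih hQ hg'').2
        refine Sig_succ h1 ?_
        intro l
        simp [h]
      refine Sig_succ h3 ?_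
      intro l
      simp
    obtain ⟨Q, hQ, h⟩ := hP
    rcases h with h | h
    · exact key hQ h
    · have h' : ∀ a, (¬ P a) ↔ ∃ y, ¬ Q (Nat.pair a y) := by
        intro a
        rw [h]
        simp
      have := key hQ.not h'
      simp only [not_not] at this
      exact ⟨this.2, this.1⟩

theorem Sig_final {k : ℕ} {P : ℕ → Prop} (h : Ar k P) {n : ℕ} (hn : 2 * k ≤ n) :
    ∃ R : List ℕ → Prop, ComputablePred R ∧ ∀ x : ℕ, P x ↔ SigT R n [x] := by
  have h1 := (Sig_of_Ar h (g := fun l => l.headI) Primrec.list_headI.to_comp).1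
  obtain ⟨R, hR, h'⟩ := Sig_mono hn h1
  exact ⟨R, hR, fun x => h' [x]⟩

end Sig

end Pool.Agent.HTn
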