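import Mathlib

open Set

namespace Pool.Agent.HTn

theorem core_aux {Z : Type*} [TopologicalSpace Z] (T : Z → Z) (hT : Continuous T)
    (hsurj : Function.Surjective T) (F : Set Z) (hF : IsClosed F)
    (hint : interior F = ∅) [Nonempty Z] (L : ℕ) :
    (⋃ s ∈ Finset.range (L + 1), (T^[s]) ⁻¹' F) ≠ univ := by
  induction L with
  | zero =>
    intro h
    have h1 : F = univ := by
      rw [← h]
      ext z
      simp
    rw [h1, interior_univ] at hint
    exact (univ_nonempty (α := Z)).ne_empty hint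
  | succ L ih =>
    intro h
    apply ih
    have hcl : IsClosed (⋃ s ∈ Finset.range (L + 1), (T^[s]) ⁻¹' F) := by
      apply Set.Finite.isClosed_biUnion (Finset.finite_toSet _)
      intro s _
      exact hF.preimage (hT.iterate s)
    have h1 : Fᶜ ⊆ T ⁻¹' (⋃ s ∈ Finset.range (L + 1), (T^[s]) ⁻¹' F) := by
      intro z hz
      have h2 : z ∈ (⋃ s ∈ Finset.range (L + 1 + 1), (T^[s]) ⁻¹' F) := by
        rw [h]; trivial
      simp only [mem_iUnion, Finset.mem_range] at h2
      obtain ⟨s, hs, hs2⟩ := h2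
      cases s with
      | zero => exact absurd hs2 hz
      | succ s =>
        simp only [mem_preimage, mem_iUnion, Finset.mem_range]
        refine ⟨s, by omega, ?_⟩
        exact hs2
    have h2 : (univ : Set Z) ⊆ T ⁻¹' (⋃ s ∈ Finset.range (L + 1), (T^[s]) ⁻¹' F) := by
      have h3 := closure_minimal h1 (hcl.preimage hT)
      rwa [closure_compl, hint, compl_empty] at h3
    rw [eq_univ_iff_forall]
    intro w
    obtain ⟨z, rfl⟩ := hsurj w
    exact h2 (mem_univ z)

theorem core {Z : Type*} [TopologicalSpace Z] (D T : Z → Z) (hD : Continuous D)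
    (hT : Continuous T) (hcomm : ∀ z, T (D z) = D (T z))
    (hmin : ∀ C : Set Z, IsClosed C → C.Nonempty → (∀ z ∈ C, D z ∈ C) →
      (∀ z ∈ C, T z ∈ C) → C = univ)
    (hsurj : Function.Surjective T)
    (hrec : ∀ B : Set Z, IsOpen B → B.Nonempty → ∃ w ∈ B, ∃ k : ℕ, D^[k + 1] w ∈ B)
    (V : Set Z) (hV : IsOpen V) (A : Set Z) (hA : A.Nonempty) (hTA : ∀ z ∈ A, T z ∈ A) (L : ℕ)
    (h : ∀ a ∈ A, ∃ s ≤ L, T^[s] a ∈ closure {z | ∃ b : ℕ, D^[b] z ∈ V} ∧
      ¬ ∃ b : ℕ, D^[b] (T^[s] a) ∈ V) : False := by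
  haveI : Nonempty Z := ⟨hA.some⟩
  set N : Set Z := {z | ∃ b : ℕ, D^[b] z ∈ V} with hN
  have hNo : IsOpen N := by
    have : N = ⋃ b : ℕ, (D^[b]) ⁻¹' V := by
      ext z; simp [hN]
    rw [this]
    exact isOpen_iUnion fun b => hV.preimage (hD.iterate b)
  set F : Set Z := closure N \ N with hFdef
  have hFc : IsClosed F := isClosed_closure.sdiff hNo
  have hFi : interior F = ∅ := by
    by_contra hne
    rw [← ne_eq, ← nonempty_iff_ne_empty] at hne
    obtain ⟨z, hz⟩ := hne
    have h1 : z ∈ closure N := (interior_subset hz).1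
    obtain ⟨w, hw1, hw2⟩ := mem_closure_iff.1 h1 _ isOpen_interior hz
    exact (interior_subset hw1).2 hw2
  -- N absorbs preimages
  have hNpre : ∀ z, D z ∈ N → z ∈ N := by
    rintro z ⟨b, hb⟩
    exact ⟨b + 1, by rwa [Function.iterate_succ_apply]⟩
  have hclN : ∀ z ∈ closure N, D z ∈ closure N := by
    intro z hz
    rw [mem_closure_iff]
    intro O hO hzO
    obtain ⟨w, hw1, hw2⟩ := mem_closure_iff.1 hz _ (hO.preimage hD) hzO
    obtain ⟨w, hw, k, hk⟩ := hrec (D ⁻¹' O ∩ N) ((hO.preimage hD).inter hNo) ⟨w, hw1, hw2⟩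
    refine ⟨D w, hw.1, ?_⟩
    obtain ⟨b, hb⟩ := hk.2
    refine ⟨b + k, ?_⟩
    rw [Function.iterate_add_apply]
    rwa [Function.iterate_succ_apply] at hb
  have hFD : ∀ z ∈ F, D z ∈ F := fun z hz => ⟨hclN z hz.1, fun hc => hz.2 (hNpre z hc)⟩
  set E : Set Z := ⋃ s ∈ Finset.range (L + 1), (T^[s]) ⁻¹' F with hE
  have hEc : IsClosed E := by
    apply Set.Finite.isClosed_biUnion (Finset.finite_toSet _)
    intro s _
    exact hFc.preimage (hT.iterate s)
  have hcommit : ∀ s z, T^[s] (D z) = D (T^[s] z) := by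
    intro s z
    exact (Function.Commute.iterate_left (f := T) (g := D) hcomm s) z
  have hED : ∀ z ∈ E, D z ∈ E := by
    intro z hz
    simp only [hE, mem_iUnion, Finset.mem_range, mem_preimage] at hz ⊢
    obtain ⟨s, hs, hz⟩ := hz
    exact ⟨s, hs, by rw [hcommit]; exact hFD _ hz⟩
  have hAE : A ⊆ E := by
    intro a ha
    obtain ⟨s, hs, h1, h2⟩ := h a ha
    simp only [hE, mem_iUnion, Finset.mem_range, mem_preimage]
    exact ⟨s, by omega, h1, h2⟩
  have hDE : ∀ (b : ℕ) z, z ∈ E → D^[b] z ∈ E := by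
    intro b
    induction b with
    | zero => intro z hz; exact hz
    | succ b ih => intro z hz; rw [Function.iterate_succ_apply]; exact ih _ (hED z hz)
  set G : Set Z := {z | ∃ a ∈ A, ∃ b : ℕ, D^[b] a = z} with hG
  have hGD : ∀ z ∈ G, D z ∈ G := by
    rintro z ⟨a, ha, b, rfl⟩
    exact ⟨a, ha, b + 1, by rw [Function.iterate_succ_apply']⟩
  have hGT : ∀ z ∈ G, T z ∈ G := by
    rintro z ⟨a, ha, b, rfl⟩
    refine ⟨T a, hTA a ha, b, ?_⟩
    exact ((Function.Commute.iterate_right (f := T) (g := D) hcomm b) a).symm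
  have hGE : G ⊆ E := by
    rintro z ⟨a, ha, b, rfl⟩
    exact hDE b a (hAE ha)
  have hclinv : ∀ (f : Z → Z), Continuous f → (∀ z ∈ G, f z ∈ G) →
      ∀ z ∈ closure G, f z ∈ closure G := by
    intro f hf hfG z hz
    have : closure G ⊆ f ⁻¹' closure G :=
      closure_minimal (fun z hz => subset_closure (hfG z hz)) (isClosed_closure.preimage hf)
    exact this hz
  have hfin : closure G = univ := hmin _ isClosed_closure
    ⟨hA.some, subset_closure ⟨hA.some, hA.some_mem, 0, rfl⟩⟩ (hclinv D hD hGD) (hclinv T hT hGT)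
  have hEu : E = univ := by
    have h1 : closure G ⊆ E := closure_minimal hGE hEc
    rw [hfin] at h1
    exact univ_subset_iff.1 h1
  exact core_aux T hT hsurj F hFc hFi L hEu

end Pool.Agent.HTn
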