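import Pool.Agent.HTn.Arith

namespace Pool.Agent.HTn

open Encodable

variable {Θ : Type} {α β γ : Type} [Primcodable α] [Primcodable β] [Primcodable γ]

/-- uniformly arithmetical families: the number of quantifiers does not depend on the parameter -/
def DA (P : Θ → α → Prop) : Prop := ∃ K, ∀ θ, ∃ Q : ℕ → Prop, Ar K Q ∧ ∀ a, P θ a ↔ Q (encode a)

theorem DA.congr {P Q : Θ → α → Prop} (h : DA P) (hPQ : ∀ θ a, Q θ a ↔ P θ a) : DA Q := by
  have : Q = P := funext fun θ => funext fun a => propext (hPQ θ a)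
  rwa [this]

theorem DA.of_bool {f : Θ → α → Bool} (hf : ∀ θ, Computable (f θ)) :
    DA (fun θ a => f θ a = true) := by
  refine ⟨0, fun θ => ⟨fun m => ((decode (α := α) m).map (f θ)).getD false = true,
    ⟨fun m => ((decode (α := α) m).map (f θ)).getD false, ?_, fun _ => Iff.rfl⟩, ?_⟩⟩
  · exact Computable.option_getD (Computable.option_map Computable.decode
      ((hf θ).comp Computable.snd).to₂) (Computable.const false)
  · intro a
    simp

theorem DA.of_comp {P : Θ → α → Prop} (h : ∀ θ, ComputablePred (P θ)) : DA P := by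
  choose f hf h2 using fun θ => ComputablePred.computable_iff.1 (h θ)
  refine (DA.of_bool hf).congr ?_
  intro θ a
  rw [h2 θ]

theorem DA.of_prim {P : Θ → α → Prop} (h : ∀ θ, PrimrecPred (P θ)) : DA P :=
  DA.of_comp fun θ => (h θ).computablePred

theorem DA.not {P : Θ → α → Prop} (h : DA P) : DA (fun θ a => ¬ P θ a) := by
  obtain ⟨K, h⟩ := h
  refine ⟨K, fun θ => ?_⟩
  obtain ⟨Q, hQ, h'⟩ := h θ
  exact ⟨_, hQ.not, fun a => by simp only [h' a]⟩

theorem DA.and {P Q : Θ → α → Prop} (hP : DA P) (hQ : DA Q) : DA (fun θ a => P θ a ∧ Q θ a) := by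
  obtain ⟨K, h⟩ := hP
  obtain ⟨K', h'⟩ := hQ
  refine ⟨K + K', fun θ => ?_⟩
  obtain ⟨R, hR, h1⟩ := h θ
  obtain ⟨R', hR', h2⟩ := h' θ
  exact ⟨_, hR.and hR', fun a => by simp only [h1 a, h2 a]⟩

theorem DA.or {P Q : Θ → α → Prop} (hP : DA P) (hQ : DA Q) : DA (fun θ a => P θ a ∨ Q θ a) := by
  refine (hP.not.and hQ.not).not.congr ?_
  intro θ a
  tauto

theorem DA.imp {P Q : Θ → α → Prop} (hP : DA P) (hQ : DA Q) : DA (fun θ a => P θ a → Q θ a) := by
  refine (hP.not.or hQ).congr ?_
  intro θ a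
  tauto

theorem DA.ex [Inhabited β] {P : Θ → α → β → Prop} (h : DA (fun θ (x : α × β) => P θ x.1 x.2)) :
    DA (fun θ a => ∃ b, P θ a b) := by
  obtain ⟨K, h⟩ := h
  refine ⟨K + 1, fun θ => ?_⟩
  obtain ⟨Q, hQ, h'⟩ := h θ
  have hg : Computable (fun m : ℕ => Nat.pair m.unpair.1
      (encode (((decode m.unpair.2 : Option β)).getD default))) := by
    refine Primrec₂.natPair.to_comp.comp (Computable.fst.comp Computable.unpair) ?_
    exact Computable.encode.comp (Computable.option_getD
      (Computable.decode.comp (Computable.snd.comp Computable.unpair)) (Computable.const _))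
  refine ⟨_, (hQ.subst hg).ex, ?_⟩
  intro a
  simp only [Nat.unpair_pair]
  constructor
  · rintro ⟨b, hb⟩
    refine ⟨encode b, ?_⟩
    have := (h' (a, b)).1 hb
    simpa using this
  · rintro ⟨y, hy⟩
    refine ⟨((decode y : Option β)).getD default, ?_⟩
    exact (h' (a, _)).2 hy

theorem DA.all [Inhabited β] {P : Θ → α → β → Prop} (h : DA (fun θ (x : α × β) => P θ x.1 x.2)) :
    DA (fun θ a => ∀ b, P θ a b) := by
  refine (DA.ex (P := fun θ a b => ¬ P θ a b) h.not).not.congr ?_
  intro θ a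
  push Not
  exact Iff.rfl

theorem DA.comp {P : Θ → β → Prop} (h : DA P) {f : Θ → α → β} (hf : ∀ θ, Computable (f θ)) :
    DA (fun θ a => P θ (f θ a)) := by
  obtain ⟨K, h⟩ := h
  refine ⟨K, fun θ => ?_⟩
  obtain ⟨Q, hQ, h'⟩ := h θ
  have hg : Computable (fun m : ℕ => (((decode m : Option α)).map (fun a => encode (f θ a))).getD 0) :=
    Computable.option_getD (Computable.option_map Computable.decode
      (Computable.encode.comp ((hf θ).comp Computable.snd)).to₂) (Computable.const 0)
  refine ⟨_, hQ.subst hg, ?_⟩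
  intro a
  simp [h']

/-- uniformly arithmetical functions (via graphs) -/
def DF (f : Θ → α → β) : Prop := DA (fun θ (x : α × β) => f θ x.1 = x.2)

theorem DF.of_comp [DecidableEq β] {f : Θ → α → β} (hf : ∀ θ, Computable (f θ)) : DF f := by
  have h : DA (fun (_ : Θ) (x : β × β) => x.1 = x.2) := DA.of_prim fun _ => by
    exact Primrec.eq
  exact h.comp (f := fun θ (x : α × β) => (f θ x.1, x.2)) fun θ =>
    ((hf θ).comp Computable.fst).pair Computable.snd

/-- substitute an arithmetical function into an arithmetical predicate -/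
theorem DA.subst [Inhabited β] {P : Θ → α → β → Prop} (h : DA (fun θ (x : α × β) => P θ x.1 x.2))
    {f : Θ → α → β} (hf : DF f) : DA (fun θ a => P θ a (f θ a)) := by
  refine (DA.ex (P := fun θ a b => f θ a = b ∧ P θ a b) (DA.and hf h)).congr ?_
  intro θ a
  constructor
  · intro h; exact ⟨_, rfl, h⟩
  · rintro ⟨b, rfl, h⟩; exact h

theorem DF.comp_comp {f : Θ → β → γ} (hf : DF f) {g : Θ → α → β} (hg : ∀ θ, Computable (g θ)) :
    DF (fun θ a => f θ (g θ a)) :=
  DA.comp hf (f := fun θ (x : α × γ) => (g θ x.1, x.2)) fun θ =>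
    ((hg θ).comp Computable.fst).pair Computable.snd

/-- definition by cases -/
theorem DF.ite {P : Θ → α → Prop} (hP : DA P) {f g : Θ → α → β} (hf : DF f) (hg : DF g)
    (h : Θ → α → β) (h1 : ∀ θ a, P θ a → h θ a = f θ a) (h2 : ∀ θ a, ¬ P θ a → h θ a = g θ a) :
    DF h := by
  have hP' : DA (fun θ (x : α × β) => P θ x.1) := hP.comp fun θ => Computable.fst
  refine ((hP'.and hf).or (hP'.not.and hg)).congr ?_
  rintro θ ⟨a, b⟩
  by_cases hp : P θ a
  · simp [hp, h1]
  · simp [hp, h2]

/-- primitive recursion -/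
theorem DF.recur [DecidableEq β] [Inhabited β] (b0 : Θ → β) (F : Θ → ℕ → β → β)
    (hF : DF (fun θ (x : ℕ × β) => F θ x.1 x.2)) (seq : Θ → ℕ → β)
    (h0 : ∀ θ, seq θ 0 = b0 θ) (hs : ∀ θ s, seq θ (s + 1) = F θ s (seq θ s)) : DF seq := by
  have hkey : ∀ θ (s : ℕ) (t : β), seq θ s = t ↔ ∃ l : List β, l[0]? = some (b0 θ) ∧
      (∀ q : ℕ × β × β, q.1 < s → l[q.1]? = some q.2.1 → l[q.1 + 1]? = some q.2.2 →
        F θ q.1 q.2.1 = q.2.2) ∧ l[s]? = some t := by
    intro θ s t
    constructor
    · rintro rfl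
      refine ⟨(List.range (s + 1)).map (seq θ), ?_, ?_, ?_⟩
      · rw [List.getElem?_map, List.getElem?_range (by omega)]
        simp [h0]
      · rintro ⟨j, b, b'⟩ hj hb hb'
        simp only at hj hb hb' ⊢
        rw [List.getElem?_map, List.getElem?_range (by omega)] at hb hb'
        simp only [Option.map_some, Option.some.injEq] at hb hb'
        rw [← hb, ← hb', hs]
      · rw [List.getElem?_map, List.getElem?_range (by omega)]
        rfl
    · rintro ⟨l, hl0, hlj, hls⟩
      have hlen : s < l.length := by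
        by_contra hcon
        rw [List.getElem?_eq_none (by omega)] at hls
        simp at hls
      have : ∀ j ≤ s, l[j]? = some (seq θ j) := by
        intro j
        induction j with
        | zero => intro _; rw [h0]; exact hl0
        | succ j ih =>
          intro hj
          have h3 := ih (by omega)
          have h4 : l[j + 1]? = some (l[j + 1]'(by omega)) := List.getElem?_eq_getElem (by omega)
          have h5 := hlj (j, seq θ j, l[j + 1]'(by omega)) (by simp; omega) h3 h4
          simp only at h5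
          rw [h4, hs, h5]
      have h6 := this s le_rfl
      rw [hls] at h6
      simpa using h6.symm
  -- definability
  have hget : DA (fun (_ : Θ) (x : List β × ℕ × β) => x.1[x.2.1]? = some x.2.2) :=
    DA.of_prim fun _ => Primrec.eq.comp
      (Primrec.list_getElem?.comp Primrec.fst (Primrec.fst.comp Primrec.snd))
      (Primrec.option_some.comp (Primrec.snd.comp Primrec.snd))
  have hlt : DA (fun (_ : Θ) (x : ℕ × ℕ) => x.1 < x.2) := DA.of_prim fun _ => Primrec.nat_lt
  unfold DF
  refine DA.congr (P := fun θ (x : ℕ × β) => ∃ l : List β, l[0]? = some (b0 θ) ∧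
      (∀ q : ℕ × β × β, q.1 < x.1 → l[q.1]? = some q.2.1 → l[q.1 + 1]? = some q.2.2 →
        F θ q.1 q.2.1 = q.2.2) ∧ l[x.1]? = some x.2) ?_ (fun θ x => hkey θ x.1 x.2)
  refine DA.ex (P := fun θ (x : ℕ × β) (l : List β) => l[0]? = some (b0 θ) ∧
      (∀ q : ℕ × β × β, q.1 < x.1 → l[q.1]? = some q.2.1 → l[q.1 + 1]? = some q.2.2 →
        F θ q.1 q.2.1 = q.2.2) ∧ l[x.1]? = some x.2) ?_
  refine DA.and ?_ (DA.and ?_ ?_)
  · refine hget.comp (f := fun θ (z : (ℕ × β) × List β) => (z.2, 0, b0 θ)) fun θ => ?_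
    exact Computable.snd.pair ((Computable.const 0).pair (Computable.const _))
  · refine DA.all (P := fun θ (z : (ℕ × β) × List β) (q : ℕ × β × β) => q.1 < z.1.1 →
      z.2[q.1]? = some q.2.1 → z.2[q.1 + 1]? = some q.2.2 → F θ q.1 q.2.1 = q.2.2) ?_
    refine DA.imp ?_ (DA.imp ?_ (DA.imp ?_ ?_))
    · refine hlt.comp (f := fun θ (z : ((ℕ × β) × List β) × (ℕ × β × β)) => (z.2.1, z.1.1.1)) fun θ => ?_
      exact (Primrec.pair (Primrec.fst.comp Primrec.snd)
        (Primrec.fst.comp (Primrec.fst.comp Primrec.fst))).to_comp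
    · refine hget.comp (f := fun θ (z : ((ℕ × β) × List β) × (ℕ × β × β)) =>
        (z.1.2, z.2.1, z.2.2.1)) fun θ => ?_
      exact (Primrec.pair (Primrec.snd.comp Primrec.fst) (Primrec.pair (Primrec.fst.comp Primrec.snd)
        (Primrec.fst.comp (Primrec.snd.comp Primrec.snd)))).to_comp
    · refine hget.comp (f := fun θ (z : ((ℕ × β) × List β) × (ℕ × β × β)) =>
        (z.1.2, z.2.1 + 1, z.2.2.2)) fun θ => ?_
      exact (Primrec.pair (Primrec.snd.comp Primrec.fst)
        (Primrec.pair (Primrec.succ.comp (Primrec.fst.comp Primrec.snd))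
        (Primrec.snd.comp (Primrec.snd.comp Primrec.snd)))).to_comp
    · refine DA.comp (P := fun θ (x : (ℕ × β) × β) => F θ x.1.1 x.1.2 = x.2) hF
        (f := fun θ (z : ((ℕ × β) × List β) × (ℕ × β × β)) => ((z.2.1, z.2.2.1), z.2.2.2)) fun θ => ?_
      exact (Primrec.pair (Primrec.pair (Primrec.fst.comp Primrec.snd)
        (Primrec.fst.comp (Primrec.snd.comp Primrec.snd)))
        (Primrec.snd.comp (Primrec.snd.comp Primrec.snd))).to_comp
  · refine hget.comp (f := fun θ (z : (ℕ × β) × List β) => (z.2, z.1.1, z.1.2)) fun θ => ?_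
    exact (Primrec.pair Primrec.snd (Primrec.pair (Primrec.fst.comp Primrec.fst)
        (Primrec.snd.comp Primrec.fst))).to_comp

end Pool.Agent.HTn
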