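import Pool.Agent.HTn.Word

open Filter Set

namespace Pool.Agent.HTn

def HE (n : ℕ) (i : Fin 2) (c y : ℕ → Fin 2) (F : List ℕ) (h : ℕ) : Prop :=
  1 ≤ h ∧ (∀ x ∈ F, x < h) ∧ (∀ st ∈ subs F, st.1 + 1 = n → c (h + st.2) = i) ∧
    PS (Bset n i y (h :: F))

open Classical in
noncomputable def fstep (n : ℕ) (i : Fin 2) (c y : ℕ → Fin 2) (F : List ℕ) : List ℕ :=
  if h : ∃ h, HE n i c y F h then Nat.find h :: F else F

noncomputable def Fseq (n : ℕ) (i : Fin 2) (c y : ℕ → Fin 2) : ℕ → List ℕ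
  | 0 => []
  | s + 1 => fstep n i c y (Fseq n i c y s)

section
variable {n : ℕ} {i : Fin 2} {c y : ℕ → Fin 2}

theorem HE_exists (hy : UR y) (hip : IP0 n c y) {F : List ℕ} (hF : PS (Bset n i y F)) :
    ∃ h, HE n i c y F h := by
  obtain ⟨h, h1, h2, h3⟩ := ET n i c y hy hip F hF (F.sum + 1)
  refine ⟨h, by omega, ?_, h2, h3⟩
  intro x hx
  have := List.single_le_sum (fun _ _ => Nat.zero_le _) x hx
  omega

theorem Fseq_spec (hy : UR y) (hip : IP0 n c y) (h0 : PS (Bset n i y [])) (s : ℕ) :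
    PS (Bset n i y (Fseq n i c y s)) ∧ ∃ h, HE n i c y (Fseq n i c y s) h ∧
      Fseq n i c y (s + 1) = h :: Fseq n i c y s := by
  classical
  have step : ∀ F, PS (Bset n i y F) → ∃ h, HE n i c y F h ∧ fstep n i c y F = h :: F := by
    intro F hF
    have he := HE_exists hy hip hF
    refine ⟨Nat.find he, Nat.find_spec he, ?_⟩
    simp only [fstep]
    rw [dif_pos he]
  have hPS : ∀ s, PS (Bset n i y (Fseq n i c y s)) := by
    intro s
    induction s with
    | zero => exact h0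
    | succ s ih =>
      obtain ⟨h, hh, he⟩ := step _ ih
      simp only [Fseq]
      rw [he]
      exact hh.2.2.2
  exact ⟨hPS s, step _ (hPS s)⟩

def Hset (n : ℕ) (i : Fin 2) (c y : ℕ → Fin 2) : Set ℕ := {x | ∃ s, x ∈ Fseq n i c y s}

theorem Hset_infinite (hy : UR y) (hip : IP0 n c y) (h0 : PS (Bset n i y [])) :
    (Hset n i c y).Infinite := by
  have key : ∀ s, ∃ x ∈ Fseq n i c y (s + 1), s ≤ x := by
    intro s
    induction s with
    | zero =>
      obtain ⟨_, h, hh, he⟩ := Fseq_spec hy hip h0 0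
      exact ⟨h, by rw [he]; simp, by omega⟩
    | succ s ih =>
      obtain ⟨x, hx, hxs⟩ := ih
      obtain ⟨_, h, hh, he⟩ := Fseq_spec hy hip h0 (s + 1)
      have := hh.2.1 x hx
      exact ⟨h, by rw [he]; simp, by omega⟩
  apply Set.infinite_of_not_bddAbove
  rintro ⟨M, hM⟩
  obtain ⟨x, hx, hxM⟩ := key (M + 1)
  have := hM ⟨_, hx⟩
  omega

theorem Fseq_mono (hy : UR y) (hip : IP0 n c y) (h0 : PS (Bset n i y [])) {s t : ℕ} (hst : s ≤ t) :
    ∀ x ∈ Fseq n i c y s, x ∈ Fseq n i c y t := by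
  induction hst with
  | refl => exact fun x hx => hx
  | step _ ih =>
    intro x hx
    obtain ⟨_, h, hh, he⟩ := Fseq_spec hy hip h0 _
    rw [he]
    exact List.mem_cons_of_mem _ (ih x hx)

theorem Fseq_new (hy : UR y) (hip : IP0 n c y) (h0 : PS (Bset n i y [])) {s t : ℕ} (hst : s ≤ t) :
    ∀ x ∈ Fseq n i c y t, x ∉ Fseq n i c y s → ∀ z ∈ Fseq n i c y s, z < x := by
  induction hst with
  | refl => exact fun x hx hx' => absurd hx hx'
  | step hst' ih =>
    intro x hx hx' z hz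
    obtain ⟨_, h, hh, he⟩ := Fseq_spec hy hip h0 _
    rw [he] at hx
    rcases List.mem_cons.1 hx with rfl | hx
    · exact hh.2.1 z (Fseq_mono hy hip h0 hst' z hz)
    · exact ih x hx hx' z hz

theorem Fseq_nodup (hy : UR y) (hip : IP0 n c y) (h0 : PS (Bset n i y [])) (s : ℕ) :
    (Fseq n i c y s).Nodup := by
  induction s with
  | zero => exact List.nodup_nil
  | succ s ih =>
    obtain ⟨_, h, hh, he⟩ := Fseq_spec hy hip h0 s
    rw [he, List.nodup_cons]
    refine ⟨fun hm => ?_, ih⟩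
    exact lt_irrefl _ (hh.2.1 h hm)

theorem Hset_homog (hn : 1 ≤ n) (hy : UR y) (hip : IP0 n c y) (h0 : PS (Bset n i y []))
    (F : Finset ℕ) (hF : (↑F : Set ℕ) ⊆ Hset n i c y) (hcard : F.card = n) :
    c (∑ x ∈ F, x) = i := by
  classical
  have hne : F.Nonempty := by
    rw [← Finset.card_pos]; omega
  set h := F.max' hne with hh
  have hhF : h ∈ F := F.max'_mem hne
  have hex : ∃ s, h ∈ Fseq n i c y s := hF hhF
  obtain ⟨s, hs, hsn⟩ : ∃ s, h ∈ Fseq n i c y (s + 1) ∧ h ∉ Fseq n i c y s := by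
    have h1 := Nat.find_spec hex
    have h2 : Nat.find hex ≠ 0 := by
      intro h0'
      rw [h0'] at h1
      simp [Fseq] at h1
    obtain ⟨s, hs⟩ := Nat.exists_eq_succ_of_ne_zero h2
    refine ⟨s, by rw [← Nat.succ_eq_add_one, ← hs]; exact h1, ?_⟩
    exact Nat.find_min hex (by omega)
  obtain ⟨_, h', hh', he⟩ := Fseq_spec hy hip h0 s
  have hheq : h = h' := by
    rw [he] at hs
    rcases List.mem_cons.1 hs with h1 | h1
    · exact h1
    · exact absurd h1 hsn
  have hrest : ∀ x ∈ F.erase h, x ∈ Fseq n i c y s := by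
    intro x hx
    obtain ⟨hxne, hxF⟩ := Finset.mem_erase.1 hx
    have hxh : x < h := lt_of_le_of_ne (F.le_max' x hxF) hxne
    obtain ⟨t, ht⟩ := hF hxF
    by_contra hcon
    have hx1 : x ∉ Fseq n i c y (s + 1) := by
      rw [he]
      intro hm
      rcases List.mem_cons.1 hm with h1 | h1
      · exact hxne (h1.trans hheq.symm)
      · exact hcon h1
    rcases le_total t (s + 1) with hle | hle
    · exact hx1 (Fseq_mono hy hip h0 hle x ht)
    · have := Fseq_new hy hip h0 hle x ht hx1 h hs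
      omega
  have hsub : List.Sublist ((Fseq n i c y s).filter (fun a => a ∈ F.erase h)) (Fseq n i c y s) :=
    List.filter_sublist
  have hnd : ((Fseq n i c y s).filter (fun a => a ∈ F.erase h)).Nodup :=
    (Fseq_nodup hy hip h0 s).filter _
  have htoF : ((Fseq n i c y s).filter (fun a => a ∈ F.erase h)).toFinset = F.erase h := by
    ext a
    simp only [List.mem_toFinset, List.mem_filter, decide_eq_true_eq]
    exact ⟨fun h => h.2, fun h => ⟨hrest a h, h⟩⟩
  have hmem := mem_subs_of_sublist hsub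
  have hlen : ((Fseq n i c y s).filter (fun a => a ∈ F.erase h)).length + 1 = n := by
    rw [← List.toFinset_card_of_nodup hnd, htoF, Finset.card_erase_of_mem hhF]
    omega
  have hsum : ((Fseq n i c y s).filter (fun a => a ∈ F.erase h)).sum = ∑ x ∈ F.erase h, x := by
    conv_rhs => rw [← htoF]
    rw [List.sum_toFinset _ hnd]
    simp
  have h3 := hh'.2.2.1 _ hmem hlen
  rw [hsum] at h3
  rw [← Finset.add_sum_erase F (fun x => x) hhF, hheq]
  rw [hheq] at h3
  exact h3

end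

/-- main combinatorial theorem -/
theorem main_comb (n : ℕ) (hn : 1 ≤ n) (c : ℕ → Fin 2) :
    ∃ i : Fin 2, (Hset n i c (yy n c)).Infinite ∧
      ∀ F : Finset ℕ, (↑F : Set ℕ) ⊆ Hset n i c (yy n c) → F.card = n → c (∑ x ∈ F, x) = i := by
  obtain ⟨i, hi⟩ := PS_start n hn (yy n c)
  exact ⟨i, Hset_infinite (UR_yy n c) (IP0_yy n c) hi,
    fun F hF hc => Hset_homog hn (UR_yy n c) (IP0_yy n c) hi F hF hc⟩

end Pool.Agent.HTn
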