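import Pool.Agent.HTn.Defn
import Pool.Agent.HTn.Homog

namespace Pool.Agent.HTn

open Encodable

/-- parameters -/
structure Par where
  n : ℕ
  i : Fin 2
  c : ℕ → Fin 2
  hc : Computable c

section general
variable {Θ : Type} {α β γ : Type} [Primcodable α] [Primcodable β] [Primcodable γ]

theorem DA_mem [DecidableEq β] : DA (fun (_ : Θ) (x : β × List β) => x.1 ∈ x.2) := by
  refine DA.congr (P := fun (_ : Θ) (x : β × List β) => ∃ m : ℕ, x.2[m]? = some x.1) ?_ ?_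
  · refine DA.ex (P := fun (_ : Θ) (x : β × List β) (m : ℕ) => x.2[m]? = some x.1) ?_
    exact DA.of_prim fun _ => Primrec.eq.comp
      (Primrec.list_getElem?.comp (Primrec.snd.comp Primrec.fst) Primrec.snd)
      (Primrec.option_some.comp (Primrec.fst.comp Primrec.fst))
  · intro _ x
    exact List.mem_iff_getElem?

theorem DA_le : DA (fun (_ : Θ) (x : ℕ × ℕ) => x.1 ≤ x.2) := DA.of_prim fun _ => Primrec.nat_le

theorem DA_lt : DA (fun (_ : Θ) (x : ℕ × ℕ) => x.1 < x.2) := DA.of_prim fun _ => Primrec.nat_lt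

theorem DA_eq [DecidableEq β] : DA (fun (_ : Θ) (x : β × β) => x.1 = x.2) :=
  DA.of_prim fun _ => Primrec.eq

theorem DA_get [DecidableEq β] :
    DA (fun (_ : Θ) (x : List β × ℕ × β) => x.1[x.2.1]? = some x.2.2) :=
  DA.of_prim fun _ => Primrec.eq.comp
      (Primrec.list_getElem?.comp Primrec.fst (Primrec.fst.comp Primrec.snd))
      (Primrec.option_some.comp (Primrec.snd.comp Primrec.snd))

end general

theorem subs_eq_foldr (F : List ℕ) : subs F = F.foldr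
    (fun x S => S ++ S.map (fun st => (st.1 + 1, st.2 + x))) [(0, 0)] := by
  induction F with
  | nil => rfl
  | cons x F ih => rw [List.foldr_cons, ← ih]; rfl

theorem primrec_subs : Primrec subs := by
  have h : Primrec (fun F : List ℕ => F.foldr
      (fun x S => S ++ S.map (fun st : ℕ × ℕ => (st.1 + 1, st.2 + x))) [(0, 0)]) := by
    refine Primrec.list_foldr (h := fun (_ : List ℕ) (p : ℕ × List (ℕ × ℕ)) =>
      p.2 ++ p.2.map (fun st : ℕ × ℕ => (st.1 + 1, st.2 + p.1))) Primrec.id (Primrec.const _) ?_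
    have h4 : Primrec (fun a : List ℕ × (ℕ × List (ℕ × ℕ)) => a.2.2 ++ a.2.2.map
        (fun st : ℕ × ℕ => (st.1 + 1, st.2 + a.2.1))) := ?_
    · exact h4.to₂
    refine Primrec.list_append.comp (Primrec.snd.comp Primrec.snd) ?_
    have h3 : Primrec (fun a : (List ℕ × (ℕ × List (ℕ × ℕ))) × (ℕ × ℕ) =>
        (a.2.1 + 1, a.2.2 + a.1.2.1)) :=
      Primrec.pair (Primrec.succ.comp (Primrec.fst.comp Primrec.snd))
        (Primrec.nat_add.comp (Primrec.snd.comp Primrec.snd)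
          (Primrec.fst.comp (Primrec.snd.comp Primrec.fst)))
    exact Primrec.list_map (Primrec.snd.comp Primrec.snd) h3.to₂
  exact h.of_eq fun F => (subs_eq_foldr F).symm

theorem DA_occ : DA (fun (θ : Par) (x : List (Fin 2) × ℕ) => occ θ.c x.1 x.2) := by
  refine DA.congr (P := fun (θ : Par) (x : List (Fin 2) × ℕ) => ∀ q : ℕ × Fin 2,
    x.1[q.1]? = some q.2 → θ.c (x.2 + q.1) = q.2) ?_ ?_
  · refine DA.all (P := fun (θ : Par) (x : List (Fin 2) × ℕ) (q : ℕ × Fin 2) =>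
      x.1[q.1]? = some q.2 → θ.c (x.2 + q.1) = q.2) ?_
    refine DA.imp ?_ ?_
    · refine DA_get.comp (f := fun (θ : Par) (z : (List (Fin 2) × ℕ) × (ℕ × Fin 2)) =>
        (z.1.1, z.2.1, z.2.2)) fun θ => ?_
      exact (Primrec.pair (Primrec.fst.comp Primrec.fst) (Primrec.pair
        (Primrec.fst.comp Primrec.snd) (Primrec.snd.comp Primrec.snd))).to_comp
    · refine DA_eq.comp (f := fun (θ : Par) (z : (List (Fin 2) × ℕ) × (ℕ × Fin 2)) =>
        (θ.c (z.1.2 + z.2.1), z.2.2)) fun θ => ?_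
      refine Computable.pair (θ.hc.comp ?_) (Primrec.snd.comp Primrec.snd).to_comp
      exact (Primrec.nat_add.comp (Primrec.snd.comp Primrec.fst) (Primrec.fst.comp Primrec.snd)).to_comp
  · intro θ x
    simp only [occ, Prod.forall]

theorem DA_NE : DA (fun (θ : Par) (S : List (List (Fin 2))) => NE θ.c S) := by
  refine DA.congr (P := fun (θ : Par) (S : List (List (Fin 2))) => ∀ q : ℕ × ℕ,
    ∃ p : ℕ, q.2 ≤ p ∧ ∀ t : ℕ × List (Fin 2), t.1 < q.1 → t.2 ∈ S → ¬ occ θ.c t.2 (p + t.1)) ?_ ?_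
  · refine DA.all (P := fun (θ : Par) (S : List (List (Fin 2))) (q : ℕ × ℕ) =>
      ∃ p : ℕ, q.2 ≤ p ∧ ∀ t : ℕ × List (Fin 2), t.1 < q.1 → t.2 ∈ S →
        ¬ occ θ.c t.2 (p + t.1)) ?_
    refine DA.ex (P := fun (θ : Par) (z : List (List (Fin 2)) × (ℕ × ℕ)) (p : ℕ) =>
      z.2.2 ≤ p ∧ ∀ t : ℕ × List (Fin 2), t.1 < z.2.1 → t.2 ∈ z.1 →
        ¬ occ θ.c t.2 (p + t.1)) ?_
    refine DA.and ?_ ?_
    · exact DA_le.comp (f := fun (θ : Par) (z : (List (List (Fin 2)) × (ℕ × ℕ)) × ℕ) =>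
        (z.1.2.2, z.2)) fun θ => (Primrec.pair (Primrec.snd.comp (Primrec.snd.comp Primrec.fst))
          Primrec.snd).to_comp
    · refine DA.all (P := fun (θ : Par) (z : (List (List (Fin 2)) × (ℕ × ℕ)) × ℕ)
        (t : ℕ × List (Fin 2)) => t.1 < z.1.2.1 → t.2 ∈ z.1.1 → ¬ occ θ.c t.2 (z.2 + t.1)) ?_
      refine DA.imp ?_ (DA.imp ?_ (DA.not ?_))
      · exact DA_lt.comp (f := fun (θ : Par) (z : ((List (List (Fin 2)) × (ℕ × ℕ)) × ℕ) ×
          (ℕ × List (Fin 2))) => (z.2.1, z.1.1.2.1)) fun θ => (Primrec.pair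
            (Primrec.fst.comp Primrec.snd) (Primrec.fst.comp (Primrec.snd.comp
              (Primrec.fst.comp Primrec.fst)))).to_comp
      · exact DA_mem.comp (f := fun (θ : Par) (z : ((List (List (Fin 2)) × (ℕ × ℕ)) × ℕ) ×
          (ℕ × List (Fin 2))) => (z.2.2, z.1.1.1)) fun θ => (Primrec.pair
            (Primrec.snd.comp Primrec.snd) (Primrec.fst.comp
              (Primrec.fst.comp Primrec.fst))).to_comp
      · exact DA_occ.comp (f := fun (θ : Par) (z : ((List (List (Fin 2)) × (ℕ × ℕ)) × ℕ) ×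
          (ℕ × List (Fin 2))) => (z.2.2, z.1.2 + z.2.1)) fun θ => (Primrec.pair
            (Primrec.snd.comp Primrec.snd) (Primrec.nat_add.comp
              (Primrec.snd.comp Primrec.fst) (Primrec.fst.comp Primrec.snd))).to_comp
  · intro θ S
    simp only [NE, Prod.forall]
    constructor
    · intro h L N
      obtain ⟨p, h1, h2⟩ := h L N
      exact ⟨p, h1, fun q w hq hw => h2 q hq w hw⟩
    · intro h L N
      obtain ⟨p, h1, h2⟩ := h L N
      exact ⟨p, h1, fun q hq w hw => h2 q w hq hw⟩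

theorem DF_Sseq : DF (fun (θ : Par) (s : ℕ) => Sseq θ.c s) := by
  refine DF.recur (fun _ => []) (fun θ i S => Sstep θ.c i S) ?_ _ (fun _ => rfl) (fun _ _ => rfl)
  have hWd : Computable (fun x : ℕ × List (List (Fin 2)) => Wd x.1 :: x.2) := by
    refine Computable.list_cons.comp ?_ Computable.snd
    exact Computable.option_getD (Computable.decode.comp Computable.fst) (Computable.const [])
  refine DF.ite (P := fun (θ : Par) (x : ℕ × List (List (Fin 2))) => NE θ.c (Wd x.1 :: x.2)) ?_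
    (f := fun _ x => Wd x.1 :: x.2) (g := fun _ x => x.2) ?_ ?_ _ ?_ ?_
  · exact DA_NE.comp (f := fun (θ : Par) (x : ℕ × List (List (Fin 2))) => Wd x.1 :: x.2)
      fun θ => hWd
  · exact DF.of_comp fun θ => hWd
  · exact DF.of_comp fun θ => Computable.snd
  · intro θ x h
    simp only [Sstep]
    rw [if_pos h]
  · intro θ x h
    simp only [Sstep]
    rw [if_neg h]

theorem DA_Forb : DA (fun (θ : Par) (w : List (Fin 2)) => Forb θ.c w) := by
  refine DA.ex (P := fun (θ : Par) (w : List (Fin 2)) (i : ℕ) => w ∈ Sseq θ.c i) ?_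
  refine DA.subst (P := fun (θ : Par) (x : List (Fin 2) × ℕ) (S : List (List (Fin 2))) => x.1 ∈ S)
    ?_ (f := fun θ x => Sseq θ.c x.2) ?_
  · exact DA_mem.comp (f := fun (θ : Par) (z : (List (Fin 2) × ℕ) × List (List (Fin 2))) =>
      (z.1.1, z.2)) fun θ => (Primrec.pair (Primrec.fst.comp Primrec.fst) Primrec.snd).to_comp
  · exact DF_Sseq.comp_comp (g := fun (θ : Par) (x : List (Fin 2) × ℕ) => x.2) fun _ =>
      Computable.snd

theorem DA_Rr : DA (fun (θ : Par) (v : List (Fin 2)) => Rr θ.n θ.c v) := by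
  refine DA.congr (P := fun (θ : Par) (v : List (Fin 2)) => ∀ r : ℕ × ℕ, ∃ K : List ℕ,
    K.length = r.1 ∧ (∀ k : ℕ, k ∈ K → r.2 ≤ k ∧ k % θ.n.factorial = 0) ∧
      ∀ st : ℕ × ℕ, st ∈ subs K → 1 ≤ st.1 → occ θ.c v st.2) ?_ ?_
  · refine DA.all (P := fun (θ : Par) (v : List (Fin 2)) (r : ℕ × ℕ) => ∃ K : List ℕ,
      K.length = r.1 ∧ (∀ k : ℕ, k ∈ K → r.2 ≤ k ∧ k % θ.n.factorial = 0) ∧
        ∀ st : ℕ × ℕ, st ∈ subs K → 1 ≤ st.1 → occ θ.c v st.2) ?_
    refine DA.ex (P := fun (θ : Par) (x : List (Fin 2) × (ℕ × ℕ)) (K : List ℕ) =>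
      K.length = x.2.1 ∧ (∀ k : ℕ, k ∈ K → x.2.2 ≤ k ∧ k % θ.n.factorial = 0) ∧
        ∀ st : ℕ × ℕ, st ∈ subs K → 1 ≤ st.1 → occ θ.c x.1 st.2) ?_
    refine DA.and ?_ (DA.and ?_ ?_)
    · exact DA_eq.comp (f := fun (θ : Par) (z : (List (Fin 2) × (ℕ × ℕ)) × List ℕ) =>
        (z.2.length, z.1.2.1)) fun θ => (Primrec.pair (Primrec.list_length.comp Primrec.snd)
          (Primrec.fst.comp (Primrec.snd.comp Primrec.fst))).to_comp
    · refine DA.all (P := fun (θ : Par) (z : (List (Fin 2) × (ℕ × ℕ)) × List ℕ) (k : ℕ) =>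
        k ∈ z.2 → z.1.2.2 ≤ k ∧ k % θ.n.factorial = 0) ?_
      refine DA.imp ?_ (DA.and ?_ ?_)
      · exact DA_mem.comp (f := fun (θ : Par) (z : ((List (Fin 2) × (ℕ × ℕ)) × List ℕ) × ℕ) =>
          (z.2, z.1.2)) fun θ => (Primrec.pair Primrec.snd (Primrec.snd.comp Primrec.fst)).to_comp
      · exact DA_le.comp (f := fun (θ : Par) (z : ((List (Fin 2) × (ℕ × ℕ)) × List ℕ) × ℕ) =>
          (z.1.1.2.2, z.2)) fun θ => (Primrec.pair (Primrec.snd.comp (Primrec.snd.comp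
            (Primrec.fst.comp Primrec.fst))) Primrec.snd).to_comp
      · exact DA_eq.comp (f := fun (θ : Par) (z : ((List (Fin 2) × (ℕ × ℕ)) × List ℕ) × ℕ) =>
          (z.2 % θ.n.factorial, 0)) fun θ => (Primrec.pair (Primrec.nat_mod.comp Primrec.snd
            (Primrec.const _)) (Primrec.const _)).to_comp
    · refine DA.all (P := fun (θ : Par) (z : (List (Fin 2) × (ℕ × ℕ)) × List ℕ) (st : ℕ × ℕ) =>
        st ∈ subs z.2 → 1 ≤ st.1 → occ θ.c z.1.1 st.2) ?_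
      refine DA.imp ?_ (DA.imp ?_ ?_)
      · exact DA_mem.comp (f := fun (θ : Par) (z : ((List (Fin 2) × (ℕ × ℕ)) × List ℕ) × (ℕ × ℕ)) =>
          (z.2, subs z.1.2)) fun θ => (Primrec.pair Primrec.snd
            (primrec_subs.comp (Primrec.snd.comp Primrec.fst))).to_comp
      · exact DA_le.comp (f := fun (θ : Par) (z : ((List (Fin 2) × (ℕ × ℕ)) × List ℕ) × (ℕ × ℕ)) =>
          (1, z.2.1)) fun θ => (Primrec.pair (Primrec.const _)
            (Primrec.fst.comp Primrec.snd)).to_comp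
      · exact DA_occ.comp (f := fun (θ : Par) (z : ((List (Fin 2) × (ℕ × ℕ)) × List ℕ) × (ℕ × ℕ)) =>
          (z.1.1.1, z.2.2)) fun θ => (Primrec.pair (Primrec.fst.comp
            (Primrec.fst.comp Primrec.fst)) (Primrec.snd.comp Primrec.snd)).to_comp
  · intro θ v
    simp only [Rr, Prod.forall, Nat.dvd_iff_mod_eq_zero]

theorem DA_Good : DA (fun (θ : Par) (v : List (Fin 2)) => Good θ.n θ.c v) := by
  refine DA.and ?_ DA_Rr
  refine DA.congr (P := fun (θ : Par) (v : List (Fin 2)) =>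
    ∀ q : List (Fin 2) × List (Fin 2) × List (Fin 2), v = q.1 ++ q.2.1 ++ q.2.2 →
      ¬ Forb θ.c q.2.1) ?_ ?_
  · refine DA.all (P := fun (θ : Par) (v : List (Fin 2))
      (q : List (Fin 2) × List (Fin 2) × List (Fin 2)) => v = q.1 ++ q.2.1 ++ q.2.2 →
      ¬ Forb θ.c q.2.1) ?_
    refine DA.imp ?_ (DA.not ?_)
    · exact DA_eq.comp (f := fun (θ : Par) (z : List (Fin 2) ×
        (List (Fin 2) × List (Fin 2) × List (Fin 2))) => (z.1, z.2.1 ++ z.2.2.1 ++ z.2.2.2))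
        fun θ => (Primrec.pair Primrec.fst (Primrec.list_append.comp (Primrec.list_append.comp
          (Primrec.fst.comp Primrec.snd) (Primrec.fst.comp (Primrec.snd.comp Primrec.snd)))
          (Primrec.snd.comp (Primrec.snd.comp Primrec.snd)))).to_comp
    · exact DA_Forb.comp (f := fun (θ : Par) (z : List (Fin 2) ×
        (List (Fin 2) × List (Fin 2) × List (Fin 2))) => z.2.2.1)
        fun θ => (Primrec.fst.comp (Primrec.snd.comp Primrec.snd)).to_comp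
  · intro θ v
    simp only [Prod.forall]

theorem DA_Ext : DA (fun (θ : Par) (v : List (Fin 2)) => Ext θ.n θ.c v) := by
  refine DA.all (P := fun (θ : Par) (v : List (Fin 2)) (l : ℕ) => ∃ u : List (Fin 2),
    u.length = l ∧ Good θ.n θ.c (v ++ u)) ?_
  refine DA.ex (P := fun (θ : Par) (x : List (Fin 2) × ℕ) (u : List (Fin 2)) =>
    u.length = x.2 ∧ Good θ.n θ.c (x.1 ++ u)) ?_
  refine DA.and ?_ ?_
  · exact DA_eq.comp (f := fun (θ : Par) (z : (List (Fin 2) × ℕ) × List (Fin 2)) =>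
      (z.2.length, z.1.2)) fun θ => (Primrec.pair (Primrec.list_length.comp Primrec.snd)
        (Primrec.snd.comp Primrec.fst)).to_comp
  · exact DA_Good.comp (f := fun (θ : Par) (z : (List (Fin 2) × ℕ) × List (Fin 2)) =>
      z.1.1 ++ z.2) fun θ => (Primrec.list_append.comp (Primrec.fst.comp Primrec.fst)
        Primrec.snd).to_comp

theorem DF_wseq : DF (fun (θ : Par) (s : ℕ) => wseq θ.n θ.c s) := by
  refine DF.recur (fun _ => []) (fun θ _ w => wstep θ.n θ.c w) ?_ _ (fun _ => rfl) (fun _ _ => rfl)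
  have happ : ∀ d : Fin 2, Computable (fun x : ℕ × List (Fin 2) => x.2 ++ [d]) := fun d =>
    Computable.list_append.comp Computable.snd (Computable.const [d])
  refine DF.ite (P := fun (θ : Par) (x : ℕ × List (Fin 2)) => Ext θ.n θ.c (x.2 ++ [0])) ?_
    (f := fun _ x => x.2 ++ [0]) (g := fun _ x => x.2 ++ [1]) ?_ ?_ _ ?_ ?_
  · exact DA_Ext.comp (f := fun (θ : Par) (x : ℕ × List (Fin 2)) => x.2 ++ [0])
      fun θ => happ 0
  · exact DF.of_comp fun θ => happ 0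
  · exact DF.of_comp fun θ => happ 1
  · intro θ x h
    simp only [wstep]
    rw [if_pos h]
  · intro θ x h
    simp only [wstep]
    rw [if_neg h]

theorem DF_yy : DF (fun (θ : Par) (s : ℕ) => yy θ.n θ.c s) := by
  refine DA.congr (P := fun (θ : Par) (x : ℕ × Fin 2) =>
    (wseq θ.n θ.c (x.1 + 1))[x.1]? = some x.2) ?_ ?_
  · refine DA.subst (P := fun (θ : Par) (x : ℕ × Fin 2) (w : List (Fin 2)) => w[x.1]? = some x.2) ?_
      (f := fun θ x => wseq θ.n θ.c (x.1 + 1)) ?_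
    · exact DA_get.comp (f := fun (θ : Par) (z : (ℕ × Fin 2) × List (Fin 2)) =>
        (z.2, z.1.1, z.1.2)) fun θ => (Primrec.pair Primrec.snd (Primrec.pair
          (Primrec.fst.comp Primrec.fst) (Primrec.snd.comp Primrec.fst))).to_comp
    · exact DF_wseq.comp_comp (g := fun (θ : Par) (x : ℕ × Fin 2) => x.1 + 1) fun _ =>
        (Primrec.succ.comp Primrec.fst).to_comp
  · rintro θ ⟨s, d⟩
    simp only
    rw [wseq_get θ.n θ.c (s + 1) s (by omega)]
    simp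

theorem DA_Bset : DA (fun (θ : Par) (x : List ℕ × ℕ) =>
    x.2 ∈ Bset θ.n θ.i (yy θ.n θ.c) x.1) := by
  refine DA.congr (P := fun (θ : Par) (x : List ℕ × ℕ) => ∀ q : ℕ × (ℕ × ℕ), 1 ≤ q.1 →
    q.2 ∈ subs x.1 → q.2.1 + q.1 = θ.n → yy θ.n θ.c (q.1 * x.2 + q.2.2) = θ.i) ?_ ?_
  · refine DA.all (P := fun (θ : Par) (x : List ℕ × ℕ) (q : ℕ × (ℕ × ℕ)) => 1 ≤ q.1 →
      q.2 ∈ subs x.1 → q.2.1 + q.1 = θ.n → yy θ.n θ.c (q.1 * x.2 + q.2.2) = θ.i) ?_
    refine DA.imp ?_ (DA.imp ?_ (DA.imp ?_ ?_))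
    · exact DA_le.comp (f := fun (θ : Par) (z : (List ℕ × ℕ) × (ℕ × (ℕ × ℕ))) =>
        (1, z.2.1)) fun θ => (Primrec.pair (Primrec.const _)
            (Primrec.fst.comp Primrec.snd)).to_comp
    · exact DA_mem.comp (f := fun (θ : Par) (z : (List ℕ × ℕ) × (ℕ × (ℕ × ℕ))) =>
        (z.2.2, subs z.1.1)) fun θ => (Primrec.pair (Primrec.snd.comp Primrec.snd)
          (primrec_subs.comp (Primrec.fst.comp Primrec.fst))).to_comp
    · exact DA_eq.comp (f := fun (θ : Par) (z : (List ℕ × ℕ) × (ℕ × (ℕ × ℕ))) =>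
        (z.2.2.1 + z.2.1, θ.n)) fun θ => (Primrec.pair (Primrec.nat_add.comp
          (Primrec.fst.comp (Primrec.snd.comp Primrec.snd)) (Primrec.fst.comp Primrec.snd))
            (Primrec.const _)).to_comp
    · refine DA.comp (P := fun (θ : Par) (x : ℕ × Fin 2) => yy θ.n θ.c x.1 = x.2) DF_yy
        (f := fun (θ : Par) (z : (List ℕ × ℕ) × (ℕ × (ℕ × ℕ))) =>
          (z.2.1 * z.1.2 + z.2.2.2, θ.i)) fun θ => ?_
      exact (Primrec.pair (Primrec.nat_add.comp (Primrec.nat_mul.comp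
        (Primrec.fst.comp Primrec.snd) (Primrec.snd.comp Primrec.fst))
          (Primrec.snd.comp (Primrec.snd.comp Primrec.snd))) (Primrec.const _)).to_comp
  · intro θ x
    simp only [Bset, Set.mem_ofPred_eq, Prod.forall]

theorem DA_PS : DA (fun (θ : Par) (F : List ℕ) => PS (Bset θ.n θ.i (yy θ.n θ.c) F)) := by
  refine DA.ex (P := fun (θ : Par) (F : List ℕ) (L : ℕ) => ∀ N, ∃ s, ∀ t ≤ N, ∃ u ≤ L,
    s + t + u ∈ Bset θ.n θ.i (yy θ.n θ.c) F) ?_
  refine DA.all (P := fun (θ : Par) (x : List ℕ × ℕ) (N : ℕ) => ∃ s, ∀ t ≤ N, ∃ u ≤ x.2,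
    s + t + u ∈ Bset θ.n θ.i (yy θ.n θ.c) x.1) ?_
  refine DA.ex (P := fun (θ : Par) (x : (List ℕ × ℕ) × ℕ) (s : ℕ) => ∀ t ≤ x.2, ∃ u ≤ x.1.2,
    s + t + u ∈ Bset θ.n θ.i (yy θ.n θ.c) x.1.1) ?_
  refine DA.all (P := fun (θ : Par) (x : ((List ℕ × ℕ) × ℕ) × ℕ) (t : ℕ) => t ≤ x.1.2 →
    ∃ u ≤ x.1.1.2, x.2 + t + u ∈ Bset θ.n θ.i (yy θ.n θ.c) x.1.1.1) ?_
  refine DA.imp ?_ ?_
  · exact DA_le.comp (f := fun (θ : Par) (z : (((List ℕ × ℕ) × ℕ) × ℕ) × ℕ) =>
      (z.2, z.1.1.2)) fun θ => (Primrec.pair Primrec.snd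
        (Primrec.snd.comp (Primrec.fst.comp Primrec.fst))).to_comp
  · refine DA.ex (P := fun (θ : Par) (x : (((List ℕ × ℕ) × ℕ) × ℕ) × ℕ) (u : ℕ) =>
      u ≤ x.1.1.1.2 ∧ x.1.2 + x.2 + u ∈ Bset θ.n θ.i (yy θ.n θ.c) x.1.1.1.1) ?_
    refine DA.and ?_ ?_
    · exact DA_le.comp (f := fun (θ : Par) (z : ((((List ℕ × ℕ) × ℕ) × ℕ) × ℕ) × ℕ) =>
        (z.2, z.1.1.1.1.2)) fun θ => (Primrec.pair Primrec.snd (Primrec.snd.comp
          (Primrec.fst.comp (Primrec.fst.comp (Primrec.fst.comp Primrec.fst))))).to_comp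
    · exact DA_Bset.comp (f := fun (θ : Par) (z : ((((List ℕ × ℕ) × ℕ) × ℕ) × ℕ) × ℕ) =>
        (z.1.1.1.1.1, z.1.1.2 + z.1.2 + z.2)) fun θ => (Primrec.pair
          (Primrec.fst.comp (Primrec.fst.comp (Primrec.fst.comp
            (Primrec.fst.comp Primrec.fst))))
          (Primrec.nat_add.comp (Primrec.nat_add.comp (Primrec.snd.comp
            (Primrec.fst.comp Primrec.fst)) (Primrec.snd.comp Primrec.fst)) Primrec.snd)).to_comp

theorem DA_HE : DA (fun (θ : Par) (x : List ℕ × ℕ) =>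
    HE θ.n θ.i θ.c (yy θ.n θ.c) x.1 x.2) := by
  refine DA.and ?_ (DA.and ?_ (DA.and ?_ ?_))
  · exact DA_le.comp (f := fun (θ : Par) (x : List ℕ × ℕ) => (1, x.2)) fun θ =>
      (Primrec.pair (Primrec.const _) Primrec.snd).to_comp
  · refine DA.all (P := fun (θ : Par) (x : List ℕ × ℕ) (z : ℕ) => z ∈ x.1 → z < x.2) ?_
    refine DA.imp ?_ ?_
    · exact DA_mem.comp (f := fun (θ : Par) (z : (List ℕ × ℕ) × ℕ) => (z.2, z.1.1)) fun θ =>
        (Primrec.pair Primrec.snd (Primrec.fst.comp Primrec.fst)).to_comp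
    · exact DA_lt.comp (f := fun (θ : Par) (z : (List ℕ × ℕ) × ℕ) => (z.2, z.1.2)) fun θ =>
        (Primrec.pair Primrec.snd (Primrec.snd.comp Primrec.fst)).to_comp
  · refine DA.all (P := fun (θ : Par) (x : List ℕ × ℕ) (st : ℕ × ℕ) => st ∈ subs x.1 →
      st.1 + 1 = θ.n → θ.c (x.2 + st.2) = θ.i) ?_
    refine DA.imp ?_ (DA.imp ?_ ?_)
    · exact DA_mem.comp (f := fun (θ : Par) (z : (List ℕ × ℕ) × (ℕ × ℕ)) => (z.2, subs z.1.1))
        fun θ => (Primrec.pair Primrec.snd (primrec_subs.comp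
          (Primrec.fst.comp Primrec.fst))).to_comp
    · exact DA_eq.comp (f := fun (θ : Par) (z : (List ℕ × ℕ) × (ℕ × ℕ)) => (z.2.1 + 1, θ.n))
        fun θ => (Primrec.pair (Primrec.succ.comp (Primrec.fst.comp Primrec.snd))
          (Primrec.const _)).to_comp
    · refine DA_eq.comp (f := fun (θ : Par) (z : (List ℕ × ℕ) × (ℕ × ℕ)) =>
        (θ.c (z.1.2 + z.2.2), θ.i)) fun θ => ?_
      refine Computable.pair (θ.hc.comp ?_) (Computable.const _)
      exact (Primrec.nat_add.comp (Primrec.snd.comp Primrec.fst)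
        (Primrec.snd.comp Primrec.snd)).to_comp
  · exact DA_PS.comp (f := fun (θ : Par) (x : List ℕ × ℕ) => x.2 :: x.1) fun θ =>
      (Primrec.list_cons.comp Primrec.snd Primrec.fst).to_comp

theorem DF_fstep : DF (fun (θ : Par) (F : List ℕ) => fstep θ.n θ.i θ.c (yy θ.n θ.c) F) := by
  refine DA.congr (P := fun (θ : Par) (x : List ℕ × List ℕ) =>
    (∃ h : ℕ, (HE θ.n θ.i θ.c (yy θ.n θ.c) x.1 h ∧ ∀ h' : ℕ, h' < h →
      ¬ HE θ.n θ.i θ.c (yy θ.n θ.c) x.1 h') ∧ h :: x.1 = x.2) ∨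
    ((¬ ∃ h : ℕ, HE θ.n θ.i θ.c (yy θ.n θ.c) x.1 h) ∧ x.1 = x.2)) ?_ ?_
  · refine DA.or ?_ (DA.and (DA.not ?_) DA_eq)
    · refine DA.ex (P := fun (θ : Par) (x : List ℕ × List ℕ) (h : ℕ) =>
        (HE θ.n θ.i θ.c (yy θ.n θ.c) x.1 h ∧ ∀ h' : ℕ, h' < h →
          ¬ HE θ.n θ.i θ.c (yy θ.n θ.c) x.1 h') ∧ h :: x.1 = x.2) ?_
      refine DA.and (DA.and ?_ ?_) ?_
      · exact DA_HE.comp (f := fun (θ : Par) (z : (List ℕ × List ℕ) × ℕ) => (z.1.1, z.2))
          fun θ => (Primrec.pair (Primrec.fst.comp Primrec.fst) Primrec.snd).to_comp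
      · refine DA.all (P := fun (θ : Par) (z : (List ℕ × List ℕ) × ℕ) (h' : ℕ) => h' < z.2 →
          ¬ HE θ.n θ.i θ.c (yy θ.n θ.c) z.1.1 h') ?_
        refine DA.imp ?_ (DA.not ?_)
        · exact DA_lt.comp (f := fun (θ : Par) (z : ((List ℕ × List ℕ) × ℕ) × ℕ) =>
            (z.2, z.1.2)) fun θ => (Primrec.pair Primrec.snd
              (Primrec.snd.comp Primrec.fst)).to_comp
        · exact DA_HE.comp (f := fun (θ : Par) (z : ((List ℕ × List ℕ) × ℕ) × ℕ) =>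
            (z.1.1.1, z.2)) fun θ => (Primrec.pair (Primrec.fst.comp
              (Primrec.fst.comp Primrec.fst)) Primrec.snd).to_comp
      · exact DA_eq.comp (f := fun (θ : Par) (z : (List ℕ × List ℕ) × ℕ) =>
          (z.2 :: z.1.1, z.1.2)) fun θ => (Primrec.pair (Primrec.list_cons.comp Primrec.snd
            (Primrec.fst.comp Primrec.fst)) (Primrec.snd.comp Primrec.fst)).to_comp
    · refine DA.ex (P := fun (θ : Par) (x : List ℕ × List ℕ) (h : ℕ) =>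
        HE θ.n θ.i θ.c (yy θ.n θ.c) x.1 h) ?_
      exact DA_HE.comp (f := fun (θ : Par) (z : (List ℕ × List ℕ) × ℕ) => (z.1.1, z.2))
          fun θ => (Primrec.pair (Primrec.fst.comp Primrec.fst) Primrec.snd).to_comp
  · classical
    rintro θ ⟨F, G⟩
    simp only [fstep]
    by_cases he : ∃ h, HE θ.n θ.i θ.c (yy θ.n θ.c) F h
    · rw [dif_pos he]
      constructor
      · intro hG
        exact Or.inl ⟨_, ⟨Nat.find_spec he, fun h' hh' => Nat.find_min he hh'⟩, hG⟩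
      · rintro (⟨h, ⟨h1, h2⟩, h3⟩ | ⟨h1, _⟩)
        · rw [← h3]
          congr 1
          exact (Nat.find_eq_iff he).2 ⟨h1, h2⟩
        · exact absurd he h1
    · rw [dif_neg he]
      constructor
      · intro hG
        exact Or.inr ⟨he, hG⟩
      · rintro (⟨h, ⟨h1, h2⟩, h3⟩ | ⟨_, h2⟩)
        · exact absurd ⟨h, h1⟩ he
        · exact h2

theorem DF_Fseq : DF (fun (θ : Par) (s : ℕ) => Fseq θ.n θ.i θ.c (yy θ.n θ.c) s) := by
  refine DF.recur (fun _ => []) (fun θ _ F => fstep θ.n θ.i θ.c (yy θ.n θ.c) F) ?_ _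
    (fun _ => rfl) (fun _ _ => rfl)
  exact DF_fstep.comp_comp (g := fun (θ : Par) (x : ℕ × List ℕ) => x.2) fun _ => Computable.snd

theorem DA_Hset : DA (fun (θ : Par) (x : ℕ) => x ∈ Hset θ.n θ.i θ.c (yy θ.n θ.c)) := by
  refine DA.ex (P := fun (θ : Par) (x : ℕ) (s : ℕ) =>
    x ∈ Fseq θ.n θ.i θ.c (yy θ.n θ.c) s) ?_
  refine DA.subst (P := fun (θ : Par) (x : ℕ × ℕ) (F : List ℕ) => x.1 ∈ F)
    ?_ (f := fun θ x => Fseq θ.n θ.i θ.c (yy θ.n θ.c) x.2) ?_
  · exact DA_mem.comp (f := fun (θ : Par) (z : (ℕ × ℕ) × List ℕ) =>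
      (z.1.1, z.2)) fun θ => (Primrec.pair (Primrec.fst.comp Primrec.fst) Primrec.snd).to_comp
  · exact DF_Fseq.comp_comp (g := fun (θ : Par) (x : ℕ × ℕ) => x.2) fun _ =>
      Computable.snd

/-- the uniform theorem: one level of the hierarchy suffices for all n -/
theorem main_uniform : ∃ K : ℕ, ∀ n : ℕ, 1 ≤ n → ∀ c : ℕ → Fin 2, Computable c →
    ∃ H : Set ℕ, H.Infinite ∧ (∃ i : Fin 2, ∀ F : Finset ℕ, (↑F : Set ℕ) ⊆ H → F.card = n →
      c (∑ x ∈ F, x) = i) ∧ ∀ m, 2 * K ≤ m → ∃ R : List ℕ → Prop, ComputablePred R ∧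
        ∀ x : ℕ, x ∈ H ↔ SigT R m [x] := by
  obtain ⟨K, hK⟩ := DA_Hset
  refine ⟨K, ?_⟩
  intro n hn c hc
  obtain ⟨i, hinf, hhom⟩ := main_comb n hn c
  refine ⟨_, hinf, ⟨i, hhom⟩, ?_⟩
  intro m hm
  obtain ⟨Q, hQ, h⟩ := hK ⟨n, i, c, hc⟩
  obtain ⟨R, hR, h'⟩ := Sig_final hQ hm
  refine ⟨R, hR, fun x => ?_⟩
  have h1 := h x
  simp only at h1
  rw [h1, ← h']
  rfl

end Pool.Agent.HTn
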