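import Pool.Agent.HTn.S1

open Filter Set

namespace Pool.Agent.HTn

attribute [local instance] Ultrafilter.add Ultrafilter.addSemigroup

/-- all pairs (size, sum) over sublists -/
def subs : List ℕ → List (ℕ × ℕ)
  | [] => [(0, 0)]
  | x :: F => subs F ++ (subs F).map (fun st => (st.1 + 1, st.2 + x))

theorem mem_subs_cons {x : ℕ} {F : List ℕ} {st : ℕ × ℕ} :
    st ∈ subs (x :: F) ↔ st ∈ subs F ∨ ∃ st' ∈ subs F, st = (st'.1 + 1, st'.2 + x) := by
  simp only [subs, List.mem_append, List.mem_map]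
  constructor
  · rintro (h | ⟨a, ha, rfl⟩)
    · exact Or.inl h
    · exact Or.inr ⟨a, ha, rfl⟩
  · rintro (h | ⟨a, ha, rfl⟩)
    · exact Or.inl h
    · exact Or.inr ⟨a, ha, rfl⟩

theorem subs_sum_le {F : List ℕ} : ∀ st ∈ subs F, st.2 ≤ F.sum := by
  induction F with
  | nil =>
    intro st hst
    simp only [subs, List.mem_singleton] at hst
    simp [hst]
  | cons x F ih =>
    intro st hst
    rcases mem_subs_cons.1 hst with h | ⟨st', h, rfl⟩
    · have := ih st h
      simp only [List.sum_cons]; omega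
    · have := ih st' h
      simp only [List.sum_cons]; omega

theorem mem_subs_of_sublist {I F : List ℕ} (h : List.Sublist I F) : (I.length, I.sum) ∈ subs F := by
  induction h with
  | slnil => simp [subs]
  | cons x _ ih => exact mem_subs_cons.2 (Or.inl ih)
  | cons_cons x _ ih =>
    refine mem_subs_cons.2 (Or.inr ⟨_, ih, ?_⟩)
    simp [add_comm]

/-- the set of good continuation parameters -/
def Bset (n : ℕ) (i : Fin 2) (y : ℕ → Fin 2) (F : List ℕ) : Set ℕ :=
  {b | ∀ (j : ℕ) (st : ℕ × ℕ), 1 ≤ j → st ∈ subs F → st.1 + j = n → y (j * b + st.2) = i}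

def Uset (n : ℕ) (i : Fin 2) (y : ℕ → Fin 2) (F : List ℕ) : Set (ℕ × ℕ) :=
  {m | ∀ (j : ℕ) (st : ℕ × ℕ), st ∈ subs F → st.1 + j + 1 = n → y (m.1 + j * m.2 + st.2) = i}

theorem diag_Uset (n : ℕ) (i : Fin 2) (y : ℕ → Fin 2) (F : List ℕ) :
    {b | (b, b) ∈ Uset n i y F} = Bset n i y F := by
  ext b
  constructor
  · intro h j st hj hst hs
    obtain ⟨j, rfl⟩ : ∃ j', j = j' + 1 := ⟨j - 1, by omega⟩
    have := h j st hst (by omega)
    rw [← this]
    congr 1
    ring
  · intro h j st hst hs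
    have := h (j + 1) st (by omega) hst (by omega)
    rw [← this]
    congr 1
    simp only
    ring

theorem Uset_eps (n : ℕ) (i : Fin 2) (y : ℕ → Fin 2) (F : List ℕ) (p : Ultrafilter ℕ)
    (hp : fixes p y) (ε : Ultrafilter (ℕ × ℕ)) (hε : ∀ i, ε.map (piM i) = p) (m : ℕ × ℕ) :
    {m' | m + m' ∈ Uset n i y F} ∈ ε ↔ m ∈ Uset n i y F := by
  have key : ∀ (j M : ℕ), {m' : ℕ × ℕ | y (piM j m' + M) = y M} ∈ ε := by
    intro j M
    have h1 : {k | y (k + M) = y M} ∈ ε.map (piM j) := by rw [hε]; exact hp M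
    exact h1
  constructor
  · intro h j st hst hs
    obtain ⟨m', h1, h2⟩ := Ultrafilter.nonempty_of_mem
      (Filter.inter_mem h (key j (m.1 + j * m.2 + st.2)))
    have h3 := h1 j st hst hs
    have h4 : y (piM j m' + (m.1 + j * m.2 + st.2)) = y (m.1 + j * m.2 + st.2) := h2
    rw [← h4, ← h3]
    congr 1
    simp only [piM, Prod.fst_add, Prod.snd_add]
    ring
  · intro h
    have hfin : {st : ℕ × ℕ | st ∈ subs F}.Finite := List.finite_toSet _
    have h1 : (⋂ st ∈ {st : ℕ × ℕ | st ∈ subs F}, {m' : ℕ × ℕ |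
        y (piM (n - 1 - st.1) m' + (m.1 + (n - 1 - st.1) * m.2 + st.2)) =
          y (m.1 + (n - 1 - st.1) * m.2 + st.2)}) ∈ (ε : Filter (ℕ × ℕ)) := by
      rw [Filter.biInter_mem hfin]
      intro st _
      exact key _ _
    apply Filter.mem_of_superset h1
    intro m' hm' j st hst hs
    simp only [mem_iInter] at hm'
    have h2 := hm' st hst
    have hj : n - 1 - st.1 = j := by omega
    rw [hj] at h2
    have h3 : y (piM j m' + (m.1 + j * m.2 + st.2)) = y (m.1 + j * m.2 + st.2) := h2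
    rw [← h j st hst hs, ← h3]
    congr 1
    simp only [piM, Prod.fst_add, Prod.snd_add]
    ring

/-- piecewise syndetic -/
def PS (B : Set ℕ) : Prop := ∃ L, ∀ N, ∃ s, ∀ t ≤ N, ∃ u ≤ L, s + t + u ∈ B

theorem PS_of_mem {L : Set (Ultrafilter ℕ)} (hL : MinL L) {q : Ultrafilter ℕ} (hq : q ∈ L)
    {B : Set ℕ} (hB : B ∈ q) : PS B := by
  obtain ⟨N, hN⟩ := hL.bound hq hB
  refine ⟨N, fun N' => ?_⟩
  have h1 : (⋂ t ∈ Set.Iic N', {m | ∃ u ≤ N, u + (t + m) ∈ B}) ∈ (q : Filter ℕ) := by
    rw [Filter.biInter_mem (Set.finite_Iic N')]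
    intro t _
    obtain ⟨u, hu, h⟩ := hN (pure t + q) (hL.ideal q hq _)
    apply Filter.mem_of_superset (mem_pure_add.1 h)
    intro m hm
    exact ⟨u, hu, hm⟩
  obtain ⟨s, hs⟩ := Ultrafilter.nonempty_of_mem (show _ ∈ q from h1)
  refine ⟨s, fun t ht => ?_⟩
  simp only [mem_iInter] at hs
  obtain ⟨u, hu, h⟩ := hs t ht
  refine ⟨u, hu, ?_⟩
  rwa [show s + t + u = u + (t + s) by omega]

theorem exists_of_PS {B : Set ℕ} (hB : PS B) :
    ∃ L : Set (Ultrafilter ℕ), MinL L ∧ ∃ q ∈ L, B ∈ q := by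
  obtain ⟨N, hN⟩ := hB
  choose s hs using hN
  let K : Set (Ultrafilter ℕ) := {r | ∀ t, {m | ∃ u ≤ N, m + t + u ∈ B} ∈ r}
  have hKc : IsClosed K := by
    have : K = ⋂ t : ℕ, {r : Ultrafilter ℕ | {m | ∃ u ≤ N, m + t + u ∈ B} ∈ r} := by
      ext u; simp [K]
    rw [this]
    exact isClosed_iInter fun N => ultrafilter_isClosed_basic _
  have hKne : K.Nonempty := by
    refine ⟨(hyperfilter ℕ).map s, ?_⟩
    intro t
    change {l | ∃ u ≤ N, s l + t + u ∈ B} ∈ hyperfilter ℕ
    apply Filter.mem_hyperfilter_of_finite_compl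
    apply (Set.finite_lt_nat t).subset
    intro l hl
    simp only [mem_compl_iff, mem_ofPred_eq] at hl ⊢
    by_contra hlt
    exact hl (hs l t (by omega))
  have hKid : ∀ u ∈ K, ∀ v : Ultrafilter ℕ, v + u ∈ K := by
    intro r hr v t
    rw [mem_add]
    apply Filter.univ_mem'
    intro a
    apply Filter.mem_of_superset (hr (a + t))
    rintro m ⟨u, hu, hm⟩
    refine ⟨u, hu, ?_⟩
    rwa [show a + m + t + u = m + (a + t) + u by omega]
  obtain ⟨L, hLK, hL⟩ := exists_minL hKne hKc hKid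
  obtain ⟨r, hr⟩ := hL.ne
  have h1 : (⋃ u ∈ Set.Iic N, {m | u + m ∈ B}) ∈ r := by
    apply Filter.mem_of_superset (hLK hr 0)
    rintro m ⟨u, hu, hm⟩
    simp only [mem_iUnion, Set.mem_Iic]
    refine ⟨u, hu, ?_⟩
    change u + m ∈ B
    rwa [show u + m = m + 0 + u by omega]
  rw [Ultrafilter.finite_biUnion_mem_iff (Set.finite_Iic N)] at h1
  obtain ⟨u, _, hu⟩ := h1
  exact ⟨L, hL, pure u + r, hL.ideal r hr _, hu⟩

/-- block sums property: c restricted along finite sums looks like y -/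
def IP0 (n : ℕ) (c y : ℕ → Fin 2) : Prop :=
  ∀ l r N, ∃ K : List ℕ, K.length = r ∧ (∀ k ∈ K, N ≤ k ∧ n.factorial ∣ k) ∧
    ∀ st ∈ subs K, 1 ≤ st.1 → ∀ m < l, c (st.2 + m) = y m

theorem IP0.fin {n : ℕ} {c y : ℕ → Fin 2} (h : IP0 n c y) (l : ℕ) (ι : Type) [Fintype ι]
    (N : ℕ) : ∃ k : ι → ℕ, (∀ a, N ≤ n.factorial * k a) ∧
      ∀ J : Finset ι, J.Nonempty → ∀ m < l, c (n.factorial * ∑ a ∈ J, k a + m) = y m := by
  classical
  obtain ⟨K, hlen, hK1, hK2⟩ := h l (Fintype.card ι) N
  let e := Fintype.equivFin ι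
  let g : Fin (Fintype.card ι) → ℕ := fun a => K.get (a.cast hlen.symm)
  have hg : ∀ a, N ≤ g a ∧ n.factorial ∣ g a := fun a => hK1 _ (List.get_mem _ _)
  have hg' : ∀ a, n.factorial * (g a / n.factorial) = g a := fun a => Nat.mul_div_cancel' (hg a).2
  refine ⟨fun a => g (e a) / n.factorial, ?_, ?_⟩
  · intro a
    rw [hg']
    exact (hg _).1
  · intro J hJ m hm
    rw [Finset.mul_sum]
    simp only [hg']
    have hKmap : K = (List.finRange (Fintype.card ι)).map g := by
      apply List.ext_get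
      · simp [hlen]
      · intro k h1 h2
        simp [g]
    let J' : Finset (Fin (Fintype.card ι)) := J.map e.toEmbedding
    have hsub : List.Sublist (((List.finRange (Fintype.card ι)).filter (fun a => a ∈ J')).map g) K := by
      rw [hKmap]
      exact (List.filter_sublist).map g
    have hmem := mem_subs_of_sublist hsub
    have hnd : ((List.finRange (Fintype.card ι)).filter (fun a => a ∈ J')).Nodup :=
      (List.nodup_finRange _).filter _
    have htoF : ((List.finRange (Fintype.card ι)).filter (fun a => a ∈ J')).toFinset = J' := by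
      ext a; simp
    have hsum : (((List.finRange (Fintype.card ι)).filter (fun a => a ∈ J')).map g).sum
        = ∑ a ∈ J, g (e a) := by
      rw [← List.sum_toFinset _ hnd, htoF]
      simp [J']
    have hlen' : 1 ≤ (((List.finRange (Fintype.card ι)).filter (fun a => a ∈ J')).map g).length := by
      rw [List.length_map, ← List.toFinset_card_of_nodup hnd, htoF]
      simp only [J', Finset.card_map]
      exact hJ.card_pos
    have := hK2 _ hmem hlen' m hm
    simp only [hsum] at this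
    exact this

theorem ET (n : ℕ) (i : Fin 2) (c y : ℕ → Fin 2) (hy : UR y) (hip : IP0 n c y)
    (F : List ℕ) (hPS : PS (Bset n i y F)) (N0 : ℕ) :
    ∃ h ≥ N0, (∀ st ∈ subs F, st.1 + 1 = n → c (h + st.2) = i) ∧ PS (Bset n i y (h :: F)) := by
  classical
  obtain ⟨L, hL, q, hq, hqB⟩ := exists_of_PS hPS
  obtain ⟨p, hpp, hpmin, hpN, hpf⟩ := exists_p y hy
  obtain ⟨K, hK, ε, hεK, hε⟩ := exists_eps p hpmin
  rw [← diag_Uset] at hqB
  obtain ⟨a, r, hr, hrB, hra⟩ := S1 p hpp hpN hK hεK (Uset n i y F)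
    (Uset_eps n i y F p hpf ε hε) hL hq hqB
  set E : Set ℕ := {b | (b, b) ∈ Uset n i y F} ∩ {b | (a, b) ∈ Uset n i y F} with hE
  have hrE : E ∈ r := Filter.inter_mem hrB hra
  obtain ⟨N, hN⟩ := hL.bound hr hrE
  obtain ⟨ι, hι, hHJ⟩ := Combinatorics.Line.exists_mono_in_high_dimension (Fin (n + 1)) (Fin (N + 1))
  obtain ⟨k, hk1, hk2⟩ := hip.fin (a + F.sum + 1) ι N0
  let cc : Fin (n + 1) → ℕ := fun j => n.factorial / j.1
  let S : (ι → Fin (n + 1)) → ℕ := fun w => ∑ x, cc (w x) * k x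
  have hcol : ∀ w : ι → Fin (n + 1), ∃ u : Fin (N + 1), {m | u.1 + m ∈ E} ∈
      (pure (S w) : Ultrafilter ℕ) + r := by
    intro w
    obtain ⟨s, hs, h⟩ := hN (pure (S w) + r) (hL.ideal r hr _)
    exact ⟨⟨s, by omega⟩, h⟩
  choose C hC using hcol
  obtain ⟨l, u, hlu⟩ := hHJ C
  let J : Finset ι := Finset.univ.filter (fun x => l.idxFun x = none)
  have hJ : J.Nonempty := by
    obtain ⟨x, hx⟩ := l.proper
    exact ⟨x, by simp [J, hx]⟩
  let mJ : ℕ := ∑ x ∈ J, k x
  let s0 : ℕ := ∑ x ∈ Jᶜ, cc ((l.idxFun x).getD 0) * k x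
  have hSl : ∀ x, S (l x) = s0 + cc x * mJ := by
    intro x
    simp only [S]
    rw [← Finset.sum_add_sum_compl J, add_comm]
    congr 1
    · apply Finset.sum_congr rfl
      intro z hz
      have hz' : l.idxFun z ≠ none := by simpa [J] using hz
      obtain ⟨v, hv⟩ := Option.ne_none_iff_exists'.1 hz'
      rw [Combinatorics.Line.apply_def]
      simp only [hv, Option.getD_some]
    · simp only [mJ]
      rw [Finset.mul_sum]
      apply Finset.sum_congr rfl
      intro z hz
      have hz' : l.idxFun z = none := by simpa [J] using hz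
      rw [Combinatorics.Line.apply_def]
      simp only [hz', Option.getD_none]
  set r' : Ultrafilter ℕ := pure (u.1 + s0) + r with hr'
  have hr'L : r' ∈ L := hL.ideal r hr _
  have hmem : ∀ x : Fin (n + 1), {m | cc x * mJ + m ∈ E} ∈ r' := by
    intro x
    have h1 := hC (l x)
    rw [hlu x, mem_pure_add, hSl x] at h1
    rw [hr', mem_pure_add]
    apply Filter.mem_of_superset h1
    intro m hm
    simp only [mem_ofPred_eq] at hm ⊢
    rwa [show cc x * mJ + (u.1 + s0 + m) = u.1 + (s0 + cc x * mJ + m) by ring]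
  refine ⟨n.factorial * mJ + a, ?_, ?_, ?_⟩
  · obtain ⟨x, hx⟩ := hJ
    have h1 : k x ≤ mJ := Finset.single_le_sum (fun z _ => Nat.zero_le (k z)) hx
    have h2 := hk1 x
    have h3 : n.factorial * k x ≤ n.factorial * mJ := Nat.mul_le_mul_left _ h1
    omega
  · intro st hst hs
    have h1 := subs_sum_le st hst
    have h2 := hk2 J hJ (a + st.2) (by omega)
    rw [show n.factorial * mJ + a + st.2 = n.factorial * ∑ x ∈ J, k x + (a + st.2) by
      simp only [mJ]; ring, h2]
    obtain ⟨b, hb⟩ := Ultrafilter.nonempty_of_mem hra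
    have h3 := hb 0 st hst (by omega)
    simpa using h3
  · apply PS_of_mem hL hr'L
    have h1 : (⋂ x : Fin (n + 1), {m | cc x * mJ + m ∈ E}) ∈ (r' : Filter ℕ) :=
      Filter.iInter_mem.2 hmem
    apply Filter.mem_of_superset h1
    intro m hm j st hj hst hs
    simp only [mem_iInter] at hm
    rcases mem_subs_cons.1 hst with h | ⟨st', h, rfl⟩
    · have h2 := (hm 0).1
      have h3 : m ∈ Bset n i y F := by
        rw [← diag_Uset]
        have h4 : cc 0 * mJ + m = m := by simp [cc]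
        rw [h4] at h2
        exact h2
      exact h3 j st hj h hs
    · simp only at hs
      have h2 := (hm ⟨j, by omega⟩).2 j st' h (by omega)
      simp only [cc] at h2
      have h3 : j * (n.factorial / j) = n.factorial :=
        Nat.mul_div_cancel' (Nat.dvd_factorial (by omega) (by omega))
      rw [← h2]
      congr 1
      calc j * m + (st'.2 + (n.factorial * mJ + a)) = a + (n.factorial * mJ + j * m) + st'.2 := by ring
        _ = a + (j * (n.factorial / j) * mJ + j * m) + st'.2 := by rw [h3]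
        _ = _ := by ring

/-- the initial step: one of the colours is good -/
theorem PS_start (n : ℕ) (hn : 1 ≤ n) (y : ℕ → Fin 2) : ∃ i, PS (Bset n i y []) := by
  obtain ⟨L, _, hL⟩ := exists_minL (K := (univ : Set (Ultrafilter ℕ))) ⟨hyperfilter ℕ, trivial⟩
    isClosed_univ (fun _ _ _ => trivial)
  obtain ⟨q, hq⟩ := hL.ne
  have h1 : (⋃ i ∈ (univ : Set (Fin 2)), Bset n i y []) ∈ q := by
    apply Filter.univ_mem'
    intro b
    simp only [mem_iUnion]
    refine ⟨y (n * b), trivial, ?_⟩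
    intro j st hj hst hs
    simp only [subs, List.mem_singleton] at hst
    subst hst
    simp only [zero_add] at hs
    subst hs
    rfl
  rw [Ultrafilter.finite_biUnion_mem_iff (Set.toFinite _)] at h1
  obtain ⟨i, _, hi⟩ := h1
  exact ⟨i, PS_of_mem hL hq hi⟩

end Pool.Agent.HTn
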