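import Pool.Agent.HTn.Ultra2

open Filter Set

namespace Pool.Agent.HTn

attribute [local instance] Ultrafilter.add Ultrafilter.addSemigroup

def iv (r : Ultrafilter ℕ) : Ultrafilter (ℕ × ℕ) := r.map (fun k => (0, k))

theorem iv_add (p q : Ultrafilter ℕ) : iv (p + q) = iv p + iv q :=
  map_add _ (fun a b => by simp) p q

theorem iv_pure (a : ℕ) : iv (pure a) = pure ((0 : ℕ), a) := by
  apply Ultrafilter.coe_inj.mp
  apply Filter.ext
  intro s
  exact Iff.rfl

theorem S1 (p : Ultrafilter ℕ) (hpp : p + p = p) (hpN : ∀ N, {k | N ≤ k} ∈ p)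
    {K : Set (Ultrafilter (ℕ × ℕ))} (hK : MinL K) {ε : Ultrafilter (ℕ × ℕ)} (hεK : ε ∈ K)
    (U : Set (ℕ × ℕ)) (hU : ∀ m : ℕ × ℕ, {m' | m + m' ∈ U} ∈ ε ↔ m ∈ U)
    {L : Set (Ultrafilter ℕ)} (hL : MinL L) {q : Ultrafilter ℕ} (hq : q ∈ L)
    (hB : {b | (b, b) ∈ U} ∈ q) :
    ∃ a : ℕ, ∃ r ∈ L, {b | (b, b) ∈ U} ∈ r ∧ {b | (a, b) ∈ U} ∈ r := by
  by_contra hcon
  push Not at hcon
  obtain ⟨N, hN⟩ := hL.bound hq hB
  let D : K → K := fun z => ⟨(pure ((1 : ℕ), (0 : ℕ)) : Ultrafilter (ℕ × ℕ)) + z.1,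
    hK.ideal z.1 z.2 _⟩
  let T : K → K := fun z => ⟨(pure ((0 : ℕ), (1 : ℕ)) : Ultrafilter (ℕ × ℕ)) + z.1,
    hK.ideal z.1 z.2 _⟩
  have hD : Continuous D := by
    apply Continuous.subtype_mk
    exact (continuous_pure_add _).comp continuous_subtype_val
  have hT : Continuous T := by
    apply Continuous.subtype_mk
    exact (continuous_pure_add _).comp continuous_subtype_val
  have hDit : ∀ (b : ℕ) (z : K), (D^[b + 1] z).1 = (pure (b + 1, 0) : Ultrafilter (ℕ × ℕ)) + z.1 := by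
    intro b
    induction b with
    | zero => intro z; rfl
    | succ b ih =>
      intro z
      rw [Function.iterate_succ_apply', ]
      change (pure ((1 : ℕ), (0 : ℕ)) : Ultrafilter (ℕ × ℕ)) + (D^[b + 1] z).1 = _
      rw [ih, ← add_assoc, pure_add_pure]
      congr 2
      simp only [Prod.mk_add_mk, add_zero]
      congr 1
      omega
  have hTit : ∀ (b : ℕ) (z : K), (T^[b + 1] z).1 = (pure (0, b + 1) : Ultrafilter (ℕ × ℕ)) + z.1 := by
    intro b
    induction b with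
    | zero => intro z; rfl
    | succ b ih =>
      intro z
      rw [Function.iterate_succ_apply', ]
      change (pure ((0 : ℕ), (1 : ℕ)) : Ultrafilter (ℕ × ℕ)) + (T^[b + 1] z).1 = _
      rw [ih, ← add_assoc, pure_add_pure]
      congr 2
      simp only [Prod.mk_add_mk, add_zero]
      congr 1
      omega
  have hz0 : ∀ (z : Ultrafilter (ℕ × ℕ)), (pure ((0 : ℕ), (0 : ℕ)) : Ultrafilter (ℕ × ℕ)) + z = z := by
    intro z
    apply Ultrafilter.coe_inj.mp
    apply Filter.ext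
    intro s
    change {m | ((0 : ℕ), (0 : ℕ)) + m ∈ s} ∈ z ↔ s ∈ z
    have : ∀ m : ℕ × ℕ, ((0 : ℕ), (0 : ℕ)) + m = m := by
      intro m
      exact zero_add m
    simp only [this]
    exact Iff.rfl
  have hDit' : ∀ (b : ℕ) (z : K), (D^[b] z).1 = (pure (b, 0) : Ultrafilter (ℕ × ℕ)) + z.1 := by
    intro b z
    cases b with
    | zero => exact (hz0 z.1).symm
    | succ b => exact hDit b z
  have hTit' : ∀ (b : ℕ) (z : K), (T^[b] z).1 = (pure (0, b) : Ultrafilter (ℕ × ℕ)) + z.1 := by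
    intro b z
    cases b with
    | zero => exact (hz0 z.1).symm
    | succ b => exact hTit b z
  have hcomm : ∀ z, T (D z) = D (T z) := by
    intro z
    apply Subtype.ext
    change (pure ((0 : ℕ), (1 : ℕ)) : Ultrafilter (ℕ × ℕ)) + (pure ((1 : ℕ), (0 : ℕ)) + z.1)
      = pure ((1 : ℕ), (0 : ℕ)) + (pure ((0 : ℕ), (1 : ℕ)) + z.1)
    rw [← add_assoc, ← add_assoc, pure_add_pure, pure_add_pure]
    rfl
  have hmin : ∀ C : Set K, IsClosed C → C.Nonempty → (∀ z ∈ C, D z ∈ C) →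
      (∀ z ∈ C, T z ∈ C) → C = univ := by
    intro C hC hCne hCD hCT
    rw [eq_univ_iff_forall]
    intro w
    obtain ⟨d, hd⟩ := hCne
    obtain ⟨v, hv⟩ := hK.minim d.1 d.2 w.1 w.2
    have hCc : IsClosed (Subtype.val '' C) :=
      (hK.closed.isClosedEmbedding_subtypeVal.isClosedMap) C hC
    have hit : ∀ (a : ℕ) z, z ∈ C → D^[a] z ∈ C := by
      intro a
      induction a with
      | zero => intro z hz; exact hz
      | succ a ih => intro z hz; rw [Function.iterate_succ_apply]; exact ih _ (hCD z hz)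
    have hit2 : ∀ (a : ℕ) z, z ∈ C → T^[a] z ∈ C := by
      intro a
      induction a with
      | zero => intro z hz; exact hz
      | succ a ih => intro z hz; rw [Function.iterate_succ_apply]; exact ih _ (hCT z hz)
    have h1 : v + d.1 ∈ Subtype.val '' C := by
      apply add_mem_closed hCc
      apply Filter.univ_mem'
      intro m
      refine ⟨D^[m.1] (T^[m.2] d), hit _ _ (hit2 _ _ hd), ?_⟩
      rw [hDit', hTit', ← add_assoc, pure_add_pure]
      simp only [Prod.mk_add_mk, add_zero, zero_add]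
    rw [hv] at h1
    obtain ⟨w', hw', hww⟩ := h1
    rwa [Subtype.ext hww] at hw'
  haveI : CompactSpace K := isCompact_iff_compactSpace.1 hK.compact
  have hsurj : Function.Surjective T := by
    rw [← range_eq_univ]
    apply hmin
    · exact (isCompact_range hT).isClosed
    · exact ⟨T ⟨ε, hεK⟩, ⟨ε, hεK⟩, rfl⟩
    · rintro _ ⟨z, rfl⟩
      exact ⟨D z, hcomm z⟩
    · rintro _ ⟨z, rfl⟩
      exact ⟨T z, rfl⟩
  have hrec : ∀ B : Set K, IsOpen B → B.Nonempty → ∃ w ∈ B, ∃ k : ℕ, D^[k + 1] w ∈ B := by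
    intro B hBo hBne
    obtain ⟨O, hO, rfl⟩ := isOpen_induced_iff.1 hBo
    obtain ⟨b, hb⟩ := hBne
    have hcl : IsClosed Oᶜ := hO.isClosed_compl
    obtain ⟨v, hv⟩ := hK.minim (io p + ε) (hK.ideal ε hεK _) b.1 b.2
    have h1 : ∃ m : ℕ × ℕ, (pure m : Ultrafilter (ℕ × ℕ)) + (io p + ε) ∈ O := by
      by_contra hno
      push Not at hno
      have := add_mem_closed hcl v (io p + ε) (Filter.univ_mem' hno)
      rw [hv] at this
      exact this hb
    obtain ⟨m, hm⟩ := h1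
    set w : Ultrafilter (ℕ × ℕ) := (pure m : Ultrafilter (ℕ × ℕ)) + (io p + ε) with hw
    have hwK : w ∈ K := hK.ideal _ (hK.ideal _ hεK _) _
    have hww : io p + w = w := by
      rw [hw, ← add_assoc, ← pure_add_comm, add_assoc, ← add_assoc (io p), ← io_add, hpp]
    refine ⟨⟨w, hwK⟩, hm, ?_⟩
    by_contra hno
    push Not at hno
    have h2 : io p + w ∈ Oᶜ := by
      apply add_mem_closed hcl
      change {k : ℕ | (pure (k, 0) : Ultrafilter (ℕ × ℕ)) + w ∈ Oᶜ} ∈ p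
      apply Filter.mem_of_superset (hpN 1)
      intro k hk
      simp only [mem_ofPred_eq] at hk
      obtain ⟨k, rfl⟩ : ∃ k', k = k' + 1 := ⟨k - 1, by omega⟩
      have := hno k
      intro hcc
      apply this
      change (D^[k + 1] ⟨w, hwK⟩).1 ∈ O
      rw [hDit]
      exact hcc
    rw [hww] at h2
    exact h2 hm
  -- the open set
  have hVo : IsOpen {z : K | U ∈ z.1} :=
    (ultrafilter_isOpen_basic U).preimage continuous_subtype_val
  let A : Set K := {z | ∃ r ∈ L, z.1 = iv r + ε}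
  have hA : A.Nonempty := ⟨⟨iv q + ε, hK.ideal ε hεK _⟩, q, hq, rfl⟩
  have hTA : ∀ z ∈ A, T z ∈ A := by
    rintro z ⟨r, hr, hz⟩
    refine ⟨pure 1 + r, hL.ideal r hr _, ?_⟩
    change (pure ((0 : ℕ), (1 : ℕ)) : Ultrafilter (ℕ × ℕ)) + z.1 = _
    rw [hz, ← add_assoc, iv_add, iv_pure]
  refine core D T hD hT hcomm hmin hsurj hrec {z : K | U ∈ z.1} hVo A hA hTA N ?_
  rintro a ⟨r, hr, ha⟩
  obtain ⟨s, hs, hsB⟩ := hN r hr
  refine ⟨s, hs, ?_⟩
  set r' : Ultrafilter ℕ := pure s + r with hr'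
  have hr'L : r' ∈ L := hL.ideal r hr _
  have hr'B : {b | (b, b) ∈ U} ∈ r' := hsB
  have hval : (T^[s] a).1 = iv r' + ε := by
    rw [hTit', ha, ← add_assoc, hr', iv_add, iv_pure]
  have hmemU : ∀ (a : ℕ) (b : ℕ), U ∈ (pure (a, 0) : Ultrafilter (ℕ × ℕ)) + (pure (0, b) + ε) ↔
      (a, b) ∈ U := by
    intro a b
    rw [← add_assoc, pure_add_pure, mem_pure_add, ← hU (a, b)]
    simp only [Prod.mk_add_mk, add_zero, zero_add]
  constructor
  · rw [mem_closure_iff]
    intro O hO haO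
    obtain ⟨O', hO', rfl⟩ := isOpen_induced_iff.1 hO
    change (T^[s] a).1 ∈ O' at haO
    rw [hval] at haO
    by_contra hno
    have h3 : iv r' + ε ∈ O'ᶜ := by
      apply add_mem_closed hO'.isClosed_compl
      change {k : ℕ | (pure (0, k) : Ultrafilter (ℕ × ℕ)) + ε ∈ O'ᶜ} ∈ r'
      apply Filter.mem_of_superset hr'B
      intro k hk hcc
      apply hno
      refine ⟨⟨pure (0, k) + ε, hK.ideal ε hεK _⟩, hcc, k, ?_⟩
      change U ∈ (D^[k] ⟨pure (0, k) + ε, hK.ideal ε hεK _⟩).1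
      rw [hDit']
      exact (hmemU k k).2 hk
    exact h3 haO
  · rintro ⟨b, hb⟩
    change U ∈ (D^[b] (T^[s] a)).1 at hb
    rw [hDit', hval, mem_pure_add] at hb
    change {k : ℕ | {m' | (b, 0) + ((0, k) + m') ∈ U} ∈ ε} ∈ r' at hb
    apply hcon b r' hr'L hr'B
    apply Filter.mem_of_superset hb
    intro k hk
    exact (hmemU b k).1 hk

end Pool.Agent.HTn
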