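import Mathlib

open Filter Set

namespace Pool.Agent.HTn

attribute [local instance] Ultrafilter.add Ultrafilter.addSemigroup

section Basic
variable {M : Type*} [AddSemigroup M]

theorem mem_add {U V : Ultrafilter M} {A : Set M} :
    A ∈ U + V ↔ {m | {m' | m + m' ∈ A} ∈ V} ∈ U := Iff.rfl

theorem mem_pure_add {a : M} {V : Ultrafilter M} {A : Set M} :
    A ∈ (pure a : Ultrafilter M) + V ↔ {m' | a + m' ∈ A} ∈ V := Iff.rfl

theorem pure_add_pure (a b : M) :
    (pure a : Ultrafilter M) + pure b = pure (a + b) := by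
  apply Ultrafilter.coe_inj.mp
  apply Filter.ext
  intro s
  exact Iff.rfl

/-- a minimal closed left ideal in the space of ultrafilters -/
structure MinL (K : Set (Ultrafilter M)) : Prop where
  ne : K.Nonempty
  closed : IsClosed K
  ideal : ∀ u ∈ K, ∀ v : Ultrafilter M, v + u ∈ K
  minim : ∀ u ∈ K, ∀ w ∈ K, ∃ v : Ultrafilter M, v + u = w

theorem isClosed_range_add (u : Ultrafilter M) :
    IsClosed (range fun v : Ultrafilter M => v + u) :=
  (isCompact_range (Ultrafilter.continuous_add_left u)).isClosed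

theorem exists_minL {K : Set (Ultrafilter M)} (hne : K.Nonempty) (hcl : IsClosed K)
    (hid : ∀ u ∈ K, ∀ v : Ultrafilter M, v + u ∈ K) : ∃ L ⊆ K, MinL L := by
  let S : Set (Set (Ultrafilter M)) :=
    {L | L.Nonempty ∧ IsClosed L ∧ ∀ u ∈ L, ∀ v : Ultrafilter M, v + u ∈ L}
  obtain ⟨L, hLK, hL⟩ := zorn_superset_nonempty S (by
    intro c hc hchain hcne
    refine ⟨⋂₀ c, ⟨?_, ?_, ?_⟩, fun s hs => sInter_subset_of_mem hs⟩
    · obtain ⟨s0, hs0⟩ := hcne
      haveI : Nonempty c := ⟨⟨s0, hs0⟩⟩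
      rw [sInter_eq_iInter]
      apply IsCompact.nonempty_iInter_of_directed_nonempty_isCompact_isClosed
      · intro a b
        rcases hchain.total a.2 b.2 with h | h
        · exact ⟨a, subset_rfl, h⟩
        · exact ⟨b, h, subset_rfl⟩
      · intro a
        exact (hc a.2).1
      · intro a
        exact (hc a.2).2.1.isCompact
      · intro a
        exact (hc a.2).2.1
    · exact isClosed_sInter fun s hs => (hc hs).2.1
    · intro u hu v s hs
      exact (hc hs).2.2 u (hu s hs) v) K ⟨hne, hcl, hid⟩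
  refine ⟨L, hLK, hL.1.1, hL.1.2.1, hL.1.2.2, ?_⟩
  intro u hu w hw
  have h1 : (range fun v : Ultrafilter M => v + u) ∈ S := by
    refine ⟨⟨u + u, u, rfl⟩, isClosed_range_add u, ?_⟩
    rintro _ ⟨v, rfl⟩ v'
    exact ⟨v' + v, by simp [add_assoc]⟩
  have h2 : (range fun v : Ultrafilter M => v + u) ⊆ L := by
    rintro _ ⟨v, rfl⟩
    exact hL.1.2.2 u hu v
  have h3 := hL.2 h1 h2
  exact h3 hw

theorem MinL.compact {K : Set (Ultrafilter M)} (hK : MinL K) : IsCompact K :=
  hK.closed.isCompact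

theorem MinL.exists_idem {K : Set (Ultrafilter M)} (hK : MinL K) : ∃ e ∈ K, e + e = e :=
  exists_idempotent_in_compact_add_subsemigroup (fun r => Ultrafilter.continuous_add_left r)
    K hK.ne hK.compact (fun x _ y hy => hK.ideal y hy x)

/-- an ultrafilter sum lies in any closed set containing almost all point translates -/
theorem add_mem_closed {D : Set (Ultrafilter M)} (hD : IsClosed D) (u d : Ultrafilter M)
    (h : {m : M | (pure m : Ultrafilter M) + d ∈ D} ∈ u) : u + d ∈ D := by
  by_contra hcon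
  have ho : IsOpen Dᶜ := hD.isOpen_compl
  obtain ⟨V, ⟨A, rfl⟩, hAu, hA⟩ := ultrafilterBasis_is_basis.exists_subset_of_mem_open
    (show u + d ∈ Dᶜ from hcon) ho
  have h1 : {m | {m' | m + m' ∈ A} ∈ d} ∈ u := hAu
  obtain ⟨m, hm1, hm2⟩ := Ultrafilter.nonempty_of_mem (Filter.inter_mem h h1)
  exact hA (show (pure m : Ultrafilter M) + d ∈ {u | A ∈ u} from hm2) hm1

end Basic

end Pool.Agent.HTn
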