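import Pool.Agent.HTn.Ultra
import Pool.Agent.HTn.Core

open Filter Set

namespace Pool.Agent.HTn

attribute [local instance] Ultrafilter.add Ultrafilter.addSemigroup

theorem map_add {M N : Type*} [AddSemigroup M] [AddSemigroup N] (f : M → N)
    (hf : ∀ a b, f (a + b) = f a + f b) (U V : Ultrafilter M) :
    (U + V).map f = U.map f + V.map f := by
  apply Ultrafilter.coe_inj.mp
  apply Filter.ext
  intro s
  change {m | {m' | f (m + m') ∈ s} ∈ V} ∈ U ↔ {m | {m' | f m + f m' ∈ s} ∈ V} ∈ U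
  simp only [hf]

theorem pure_add_eq_map {M : Type*} [AddSemigroup M] (a : M) (V : Ultrafilter M) :
    (pure a : Ultrafilter M) + V = V.map (fun m => a + m) := by
  apply Ultrafilter.coe_inj.mp
  apply Filter.ext
  intro s
  exact Iff.rfl

theorem continuous_pure_add {M : Type*} [AddSemigroup M] (a : M) :
    Continuous (fun V : Ultrafilter M => (pure a : Ultrafilter M) + V) :=
  ultrafilterBasis_is_basis.continuous_iff.2 <| Set.forall_mem_range.mpr fun s ↦
    ultrafilter_isOpen_basic { m : M | a + m ∈ s }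

theorem pure_add_comm {M : Type*} [AddCommSemigroup M] (a : M) (V : Ultrafilter M) :
    (pure a : Ultrafilter M) + V = V + pure a := by
  apply Ultrafilter.coe_inj.mp
  apply Filter.ext
  intro s
  change {m | a + m ∈ s} ∈ V ↔ {m | m + a ∈ s} ∈ V
  simp only [add_comm]

/-- uniform bound for return times to a set over a minimal left ideal -/
theorem MinL.bound {L : Set (Ultrafilter ℕ)} (hL : MinL L) {q : Ultrafilter ℕ} (hq : q ∈ L)
    {B : Set ℕ} (hB : B ∈ q) : ∃ N, ∀ r ∈ L, ∃ s ≤ N, {m | s + m ∈ B} ∈ r := by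
  have hcover : L ⊆ ⋃ s : ℕ, {r : Ultrafilter ℕ | {m | s + m ∈ B} ∈ r} := by
    intro r hr
    obtain ⟨v, hv⟩ := hL.minim r hr q hq
    rw [← hv] at hB
    obtain ⟨s, hs⟩ := Ultrafilter.nonempty_of_mem (mem_add.1 hB)
    exact mem_iUnion.2 ⟨s, hs⟩
  obtain ⟨t, ht⟩ := hL.compact.elim_finite_subcover _
    (fun s => ultrafilter_isOpen_basic {m | s + m ∈ B}) hcover
  refine ⟨t.sup id, ?_⟩
  intro r hr
  have := ht hr
  simp only [mem_iUnion] at this
  obtain ⟨s, hs, hs2⟩ := this
  exact ⟨s, Finset.le_sup (f := id) hs, hs2⟩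

def fixes (p : Ultrafilter ℕ) (y : ℕ → Fin 2) : Prop := ∀ m, {k | y (k + m) = y m} ∈ p

def UR (y : ℕ → Fin 2) : Prop := ∀ l, ∃ g, ∀ p, ∃ q ≤ g, ∀ m < l, y (p + q + m) = y m

theorem exists_p (y : ℕ → Fin 2) (hy : UR y) : ∃ p : Ultrafilter ℕ, p + p = p ∧
    (∀ v : Ultrafilter ℕ, ∃ r : Ultrafilter ℕ, r + (v + p) = p) ∧ (∀ N, {k | N ≤ k} ∈ p) ∧
    fixes p y := by
  let K : Set (Ultrafilter ℕ) := {u | ∀ N, {k | N ≤ k} ∈ u}
  have hKc : IsClosed K := by
    have : K = ⋂ N : ℕ, {u : Ultrafilter ℕ | {k | N ≤ k} ∈ u} := by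
      ext u; simp [K]
    rw [this]
    exact isClosed_iInter fun N => ultrafilter_isClosed_basic _
  have hKne : K.Nonempty := by
    refine ⟨hyperfilter ℕ, fun N => ?_⟩
    apply Filter.mem_hyperfilter_of_finite_compl
    apply (Set.finite_lt_nat N).subset
    intro k hk
    simpa using hk
  have hKid : ∀ u ∈ K, ∀ v : Ultrafilter ℕ, v + u ∈ K := by
    intro u hu v N
    rw [mem_add]
    apply Filter.univ_mem'
    intro m
    apply Filter.mem_of_superset (hu N)
    intro k hk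
    simp only [mem_ofPred_eq] at hk ⊢
    omega
  obtain ⟨L, hLK, hL⟩ := exists_minL hKne hKc hKid
  have hfixc : IsClosed {u : Ultrafilter ℕ | fixes u y} := by
    have : {u : Ultrafilter ℕ | fixes u y} = ⋂ m : ℕ, {u : Ultrafilter ℕ | {k | y (k + m) = y m} ∈ u} := by
      ext u; simp [fixes]
    rw [this]
    exact isClosed_iInter fun N => ultrafilter_isClosed_basic _
  have hne : (L ∩ {u | fixes u y}).Nonempty := by
    obtain ⟨v, hv⟩ := hL.ne
    have hK : ∀ l : ℕ, ∃ q : ℕ, {b | ∀ m < l, y (b + q + m) = y m} ∈ v := by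
      intro l
      obtain ⟨g, hg⟩ := hy l
      have h1 : (⋃ q ∈ Set.Iic g, {b | ∀ m < l, y (b + q + m) = y m}) ∈ v := by
        apply Filter.univ_mem'
        intro b
        obtain ⟨q, hq, h⟩ := hg b
        simp only [mem_iUnion, Set.mem_Iic]
        exact ⟨q, hq, h⟩
      rw [Ultrafilter.finite_biUnion_mem_iff (Set.finite_Iic g)] at h1
      obtain ⟨q, _, hq⟩ := h1
      exact ⟨q, hq⟩
    choose q hq using hK
    refine ⟨(hyperfilter ℕ).map q + v, hL.ideal v hv _, ?_⟩
    intro m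
    rw [mem_add]
    change {l | {b | y (q l + b + m) = y m} ∈ v} ∈ hyperfilter ℕ
    apply Filter.mem_hyperfilter_of_finite_compl
    apply (Set.finite_le_nat m).subset
    intro l hl
    simp only [mem_compl_iff, mem_ofPred_eq] at hl ⊢
    by_contra hlt
    apply hl
    apply Filter.mem_of_superset (hq l)
    intro b hb
    have := hb m (by omega)
    simp only [mem_ofPred_eq]
    rwa [add_comm (q l) b]
  obtain ⟨p, ⟨hpL, hpf⟩, hpp⟩ := exists_idempotent_in_compact_add_subsemigroup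
    (fun r => Ultrafilter.continuous_add_left r) (L ∩ {u | fixes u y}) hne
    (hL.closed.inter hfixc).isCompact (by
      rintro u ⟨hu, hfu⟩ v ⟨hv, hfv⟩
      refine ⟨hL.ideal v hv u, ?_⟩
      intro m
      rw [mem_add]
      apply Filter.mem_of_superset (hfu m)
      intro a ha
      simp only [mem_ofPred_eq] at ha ⊢
      apply Filter.mem_of_superset (hfv (a + m))
      intro b hb
      simp only [mem_ofPred_eq] at hb ⊢
      rw [← ha, ← hb]
      congr 1
      omega)
  refine ⟨p, hpp, ?_, hLK hpL, hpf⟩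
  intro v
  exact hL.minim (v + p) (hL.ideal p hpL v) p hpL

def piM (i : ℕ) : ℕ × ℕ → ℕ := fun m => m.1 + i * m.2

theorem piM_add (i : ℕ) (a b : ℕ × ℕ) : piM i (a + b) = piM i a + piM i b := by
  simp only [piM, Prod.fst_add, Prod.snd_add]
  ring

def io (p : Ultrafilter ℕ) : Ultrafilter (ℕ × ℕ) := p.map (fun k => (k, 0))

theorem io_add (p q : Ultrafilter ℕ) : io (p + q) = io p + io q :=
  map_add _ (fun a b => by simp) p q

theorem exists_eps (p : Ultrafilter ℕ)
    (hmin : ∀ v : Ultrafilter ℕ, ∃ r : Ultrafilter ℕ, r + (v + p) = p) :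
    ∃ K : Set (Ultrafilter (ℕ × ℕ)), MinL K ∧ ∃ ε ∈ K, ∀ i, ε.map (piM i) = p := by
  have hpi : ∀ i, (io p).map (piM i) = p := by
    intro i
    apply Ultrafilter.coe_inj.mp
    apply Filter.ext
    intro s
    change {k | piM i (k, 0) ∈ s} ∈ p ↔ s ∈ p
    simp [piM]
  obtain ⟨K, hKs, hK⟩ := exists_minL (K := range fun v : Ultrafilter (ℕ × ℕ) => v + io p)
    ⟨io p + io p, io p, rfl⟩ (isClosed_range_add _) (by
      rintro _ ⟨w, rfl⟩ v
      exact ⟨v + w, add_assoc _ _ _⟩)
  obtain ⟨η, hη, hηη⟩ := hK.exists_idem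
  refine ⟨K, hK, io p + η, hK.ideal η hη _, ?_⟩
  intro i
  rw [map_add _ (piM_add i), hpi]
  obtain ⟨U, hU⟩ := hKs hη
  have h1 : η.map (piM i) = U.map (piM i) + p := by
    rw [← hU]
    change (U + io p).map (piM i) = _
    rw [map_add _ (piM_add i), hpi]
  have h2 : η.map (piM i) + η.map (piM i) = η.map (piM i) := by
    rw [← map_add _ (piM_add i), hηη]
  obtain ⟨r, hr⟩ := hmin (U.map (piM i))
  rw [← h1] at hr
  rw [← hr, add_assoc, h2]

end Pool.Agent.HTn
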