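import Pool.Agent.HTn.ET

open Filter Set

namespace Pool.Agent.HTn

attribute [local instance] Ultrafilter.add Ultrafilter.addSemigroup

def occ (c : ℕ → Fin 2) (w : List (Fin 2)) (p : ℕ) : Prop :=
  ∀ (m : ℕ) (v : Fin 2), w[m]? = some v → c (p + m) = v

def NE (c : ℕ → Fin 2) (S : List (List (Fin 2))) : Prop :=
  ∀ L N : ℕ, ∃ p, N ≤ p ∧ ∀ q < L, ∀ w ∈ S, ¬ occ c w (p + q)

def Wd (i : ℕ) : List (Fin 2) := (Encodable.decode (α := List (Fin 2)) i).getD []

theorem Wd_encode (w : List (Fin 2)) : Wd (Encodable.encode w) = w := by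
  simp [Wd]

open Classical in
noncomputable def Sstep (c : ℕ → Fin 2) (i : ℕ) (S : List (List (Fin 2))) : List (List (Fin 2)) :=
  if NE c (Wd i :: S) then Wd i :: S else S

noncomputable def Sseq (c : ℕ → Fin 2) : ℕ → List (List (Fin 2))
  | 0 => []
  | i + 1 => Sstep c i (Sseq c i)

def Forb (c : ℕ → Fin 2) (w : List (Fin 2)) : Prop := ∃ i, w ∈ Sseq c i

def Rr (n : ℕ) (c : ℕ → Fin 2) (v : List (Fin 2)) : Prop :=
  ∀ r N : ℕ, ∃ K : List ℕ, K.length = r ∧ (∀ k ∈ K, N ≤ k ∧ n.factorial ∣ k) ∧
    ∀ st ∈ subs K, 1 ≤ st.1 → occ c v st.2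

def Good (n : ℕ) (c : ℕ → Fin 2) (v : List (Fin 2)) : Prop :=
  (∀ a b d : List (Fin 2), v = a ++ b ++ d → ¬ Forb c b) ∧ Rr n c v

def Ext (n : ℕ) (c : ℕ → Fin 2) (w : List (Fin 2)) : Prop :=
  ∀ l : ℕ, ∃ u : List (Fin 2), u.length = l ∧ Good n c (w ++ u)

open Classical in
noncomputable def wstep (n : ℕ) (c : ℕ → Fin 2) (w : List (Fin 2)) : List (Fin 2) :=
  if Ext n c (w ++ [0]) then w ++ [0] else w ++ [1]

noncomputable def wseq (n : ℕ) (c : ℕ → Fin 2) : ℕ → List (Fin 2)
  | 0 => []
  | l + 1 => wstep n c (wseq n c l)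

noncomputable def yy (n : ℕ) (c : ℕ → Fin 2) (l : ℕ) : Fin 2 := ((wseq n c (l + 1))[l]?).getD 0

theorem NE_Sseq (c : ℕ → Fin 2) (i : ℕ) : NE c (Sseq c i) := by
  induction i with
  | zero =>
    intro L N
    exact ⟨N, le_rfl, fun q _ w hw => by simp [Sseq] at hw⟩
  | succ i ih =>
    simp only [Sseq, Sstep]
    split_ifs with h
    · exact h
    · exact ih

theorem Sseq_mono (c : ℕ → Fin 2) {i j : ℕ} (h : i ≤ j) : ∀ w ∈ Sseq c i, w ∈ Sseq c j := by
  induction h with
  | refl => exact fun w hw => hw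
  | step h ih =>
    intro w hw
    have := ih w hw
    simp only [Sseq, Sstep]
    split_ifs
    · exact List.mem_cons_of_mem _ this
    · exact this

theorem not_Forb {c : ℕ → Fin 2} {w : List (Fin 2)} (h : ¬ Forb c w) :
    ∃ i, ¬ NE c (w :: Sseq c i) := by
  refine ⟨Encodable.encode w, fun hNE => h ⟨Encodable.encode w + 1, ?_⟩⟩
  simp only [Sseq, Sstep]
  rw [Wd_encode, if_pos hNE]
  exact List.mem_cons_self

theorem subs_fst_zero {F : List ℕ} : ∀ st ∈ subs F, st.1 = 0 → st.2 = 0 := by
  induction F with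
  | nil =>
    intro st hst _
    simp only [subs, List.mem_singleton] at hst
    simp [hst]
  | cons x F ih =>
    intro st hst h0
    rcases mem_subs_cons.1 hst with h | ⟨st', h, rfl⟩
    · exact ih st h h0
    · simp at h0

theorem subs_FS (r : ℕ) : ∀ a : Stream' ℕ, ∀ st ∈ subs (a.take r), 1 ≤ st.1 →
    Hindman.FS a st.2 := by
  induction r with
  | zero =>
    intro a st hst h1
    simp only [Stream'.take, subs, List.mem_singleton] at hst
    simp [hst] at h1
  | succ r ih =>
    intro a st hst h1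
    rw [Stream'.take_succ] at hst
    rcases mem_subs_cons.1 hst with h | ⟨st', h, rfl⟩
    · exact Hindman.FS.tail' a _ (ih _ st h h1)
    · simp only
      rcases Nat.eq_zero_or_pos st'.1 with h0 | h0
      · rw [subs_fst_zero st' h h0, zero_add]
        exact Hindman.FS.head' a
      · rw [add_comm]
        exact Hindman.FS.cons' a _ (ih _ st' h h0)

theorem dvd_mem_idem {e : Ultrafilter ℕ} (he : e + e = e) (M : ℕ) (hM : 0 < M) :
    {k | M ∣ k} ∈ e := by
  have h1 : (⋃ ρ ∈ Set.Iio M, {k | k % M = ρ}) ∈ e := by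
    apply Filter.univ_mem'
    intro k
    simp only [mem_iUnion]
    exact ⟨k % M, Nat.mod_lt k hM, rfl⟩
  rw [Ultrafilter.finite_biUnion_mem_iff (Set.finite_Iio M)] at h1
  obtain ⟨ρ, hρ, h⟩ := h1
  have h2 : {k | k % M = ρ} ∈ e + e := by rwa [he]
  obtain ⟨a, ha1, ha2⟩ := Ultrafilter.nonempty_of_mem (Filter.inter_mem (mem_add.1 h2) h)
  obtain ⟨b, hb1, hb2⟩ := Ultrafilter.nonempty_of_mem (Filter.inter_mem ha1 h)
  have h3 : (a + b) % M = ρ := hb1
  have h4 : a % M = ρ := ha2
  have h5 : b % M = ρ := hb2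
  have h6 : ρ < M := hρ
  have h7 : ρ = 0 := by
    rw [Nat.add_mod, h4, h5] at h3
    rcases lt_or_ge (ρ + ρ) M with hlt | hge
    · rw [Nat.mod_eq_of_lt hlt] at h3; omega
    · rw [Nat.mod_eq_sub_mod hge, Nat.mod_eq_of_lt (by omega)] at h3; omega
  apply Filter.mem_of_superset h
  intro k hk
  have hk' : k % M = ρ := hk
  rw [h7] at hk'
  exact Nat.dvd_of_mod_eq_zero hk'

theorem Ext_nil (n : ℕ) (c : ℕ → Fin 2) : Ext n c [] := by
  -- the closed left ideal of ultrafilters avoiding the forbidden words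
  let K : Set (Ultrafilter ℕ) := {u | (∀ N, {k | N ≤ k} ∈ u) ∧
    ∀ w, Forb c w → ∀ q, {k | ¬ occ c w (k + q)} ∈ u}
  have hKc : IsClosed K := by
    have : K = (⋂ N : ℕ, {u : Ultrafilter ℕ | {k | N ≤ k} ∈ u}) ∩
        ⋂ w : List (Fin 2), ⋂ (_ : Forb c w), ⋂ q : ℕ,
          {u : Ultrafilter ℕ | {k | ¬ occ c w (k + q)} ∈ u} := by
      ext u; simp [K]
    rw [this]
    exact (isClosed_iInter fun N => ultrafilter_isClosed_basic _).inter
      (isClosed_iInter fun w => isClosed_iInter fun _ => isClosed_iInter fun q =>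
        ultrafilter_isClosed_basic _)
  have hKne : K.Nonempty := by
    have h1 : ∀ i, ∃ p, i ≤ p ∧ ∀ q < i + 1, ∀ w ∈ Sseq c i, ¬ occ c w (p + q) :=
      fun i => NE_Sseq c i (i + 1) i
    choose P hP1 hP2 using h1
    refine ⟨(hyperfilter ℕ).map P, ?_, ?_⟩
    · intro N
      change {i | N ≤ P i} ∈ hyperfilter ℕ
      apply Filter.mem_hyperfilter_of_finite_compl
      apply (Set.finite_lt_nat N).subset
      intro i hi
      simp only [mem_compl_iff, mem_ofPred_eq] at hi ⊢
      have := hP1 i
      omega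
    · rintro w ⟨i0, hi0⟩ q
      change {i | ¬ occ c w (P i + q)} ∈ hyperfilter ℕ
      apply Filter.mem_hyperfilter_of_finite_compl
      apply (Set.finite_lt_nat (max i0 q)).subset
      intro i hi
      simp only [mem_compl_iff, mem_ofPred_eq, not_not] at hi ⊢
      by_contra hlt
      push Not at hlt
      exact hP2 i q (by omega) w (Sseq_mono c (by omega) w hi0) hi
  have hKid : ∀ u ∈ K, ∀ v : Ultrafilter ℕ, v + u ∈ K := by
    rintro u ⟨hu1, hu2⟩ v
    constructor
    · intro N
      rw [mem_add]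
      apply Filter.univ_mem'
      intro m
      apply Filter.mem_of_superset (hu1 N)
      intro k hk
      simp only [mem_ofPred_eq] at hk ⊢
      omega
    · intro w hw q
      rw [mem_add]
      apply Filter.univ_mem'
      intro m
      apply Filter.mem_of_superset (hu2 w hw (m + q))
      intro k hk
      simp only [mem_ofPred_eq] at hk ⊢
      rwa [show m + k + q = k + (m + q) by omega]
  obtain ⟨L, hLK, hL⟩ := exists_minL hKne hKc hKid
  obtain ⟨e, heL, hee⟩ := hL.exists_idem
  obtain ⟨he1, he2⟩ := hLK heL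
  have hx : ∀ m, ∃ v : Fin 2, {k | c (k + m) = v} ∈ e := by
    intro m
    have h1 : (⋃ i ∈ (univ : Set (Fin 2)), {k | c (k + m) = i}) ∈ e := by
      apply Filter.univ_mem'
      intro k
      simp only [mem_iUnion]
      exact ⟨c (k + m), trivial, rfl⟩
    rw [Ultrafilter.finite_biUnion_mem_iff (Set.toFinite _)] at h1
    obtain ⟨i, _, hi⟩ := h1
    exact ⟨i, hi⟩
  choose x hx using hx
  intro l
  refine ⟨(List.range l).map x, by simp, ?_⟩
  rw [List.nil_append]
  set v : List (Fin 2) := (List.range l).map x with hv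
  have hvget : ∀ m z, v[m]? = some z → z = x m := by
    intro m z h
    rw [hv, List.getElem?_map] at h
    rcases lt_or_ge m l with hm | hm
    · rw [List.getElem?_range hm] at h
      simpa using h.symm
    · rw [List.getElem?_eq_none (by simpa using hm)] at h
      simp at h
  have hocc : {k | ∀ m < l, c (k + m) = x m} ∈ e := by
    have h1 : (⋂ m ∈ Set.Iio l, {k | c (k + m) = x m}) ∈ (e : Filter ℕ) := by
      rw [Filter.biInter_mem (Set.finite_Iio l)]
      intro m _
      exact hx m
    apply Filter.mem_of_superset h1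
    intro k hk m hm
    simp only [mem_iInter] at hk
    exact hk m hm
  constructor
  · intro a b d hvabd hb
    have h1 := he2 b hb a.length
    obtain ⟨k, hk1, hk2⟩ := Ultrafilter.nonempty_of_mem (Filter.inter_mem h1 hocc)
    apply hk1
    intro m z hz
    have hm : m < b.length := by
      by_contra hcon
      rw [List.getElem?_eq_none (by omega)] at hz
      simp at hz
    have hlen : l = a.length + b.length + d.length := by
      have := congrArg List.length hvabd
      simp only [hv, List.length_map, List.length_range, List.length_append] at this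
      exact this
    have h2 : v[a.length + m]? = some z := by
      rw [hvabd, List.getElem?_append_left (by simp; omega),
        List.getElem?_append_right (by omega)]
      simpa using hz
    rw [hvget _ _ h2, ← hk2 (a.length + m) (by omega)]
    congr 1
    omega
  · intro r N
    have hs : {k | (∀ m < l, c (k + m) = x m) ∧ N ≤ k ∧ n.factorial ∣ k} ∈ e :=
      Filter.inter_mem hocc (Filter.inter_mem (he1 N) (dvd_mem_idem hee _ n.factorial_pos))
    obtain ⟨a, ha⟩ := Hindman.exists_FS_of_large e hee _ hs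
    have key : ∀ st ∈ subs (a.take r), 1 ≤ st.1 →
        (∀ m < l, c (st.2 + m) = x m) ∧ N ≤ st.2 ∧ n.factorial ∣ st.2 :=
      fun st hst h1 => ha (subs_FS r a st hst h1)
    refine ⟨a.take r, by simp, ?_, ?_⟩
    · intro k hk
      have h1 : (([k] : List ℕ).length, ([k] : List ℕ).sum) ∈ subs (a.take r) :=
        mem_subs_of_sublist (List.singleton_sublist.2 hk)
      have h2 := key _ h1 (by simp)
      simpa using h2.2
    · intro st hst h1 m z hz
      rw [hvget m z hz]
      apply (key st hst h1).1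
      by_contra hcon
      rw [List.getElem?_eq_none (by simpa [hv] using hcon)] at hz
      simp at hz

theorem Good.of_append {n : ℕ} {c : ℕ → Fin 2} {v u : List (Fin 2)} (h : Good n c (v ++ u)) :
    Good n c v := by
  constructor
  · intro a b d hv
    apply h.1 a b (d ++ u)
    rw [hv]
    simp
  · intro r N
    obtain ⟨K, h1, h2, h3⟩ := h.2 r N
    refine ⟨K, h1, h2, ?_⟩
    intro st hst hs m z hz
    apply h3 st hst hs m z
    have hm : m < v.length := by
      by_contra hcon
      rw [List.getElem?_eq_none (by omega)] at hz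
      simp at hz
    rw [List.getElem?_append_left hm]
    exact hz

theorem Ext_step {n : ℕ} {c : ℕ → Fin 2} {w : List (Fin 2)} (h : Ext n c w) :
    Ext n c (w ++ [0]) ∨ Ext n c (w ++ [1]) := by
  by_contra hcon
  push Not at hcon
  obtain ⟨h0, h1⟩ := hcon
  simp only [Ext, not_forall, not_exists, not_and] at h0 h1
  obtain ⟨l0, h0⟩ := h0
  obtain ⟨l1, h1⟩ := h1
  obtain ⟨u, hu, hg⟩ := h (max l0 l1 + 1)
  cases u with
  | nil => simp at hu
  | cons d u =>
    simp only [List.length_cons] at hu
    have hgen : ∀ l' ≤ u.length, Good n c (w ++ [d] ++ u.take l') := by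
      intro l' _
      have h2 : w ++ d :: u = (w ++ [d] ++ u.take l') ++ u.drop l' := by
        simp
      rw [h2] at hg
      exact hg.of_append
    have hd : d = 0 ∨ d = 1 := by
      fin_cases d <;> simp
    rcases hd with rfl | rfl
    · exact h0 (u.take l0) (by simp; omega) (hgen l0 (by omega))
    · exact h1 (u.take l1) (by simp; omega) (hgen l1 (by omega))

theorem Ext_wseq (n : ℕ) (c : ℕ → Fin 2) (l : ℕ) : Ext n c (wseq n c l) := by
  induction l with
  | zero => exact Ext_nil n c
  | succ l ih =>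
    simp only [wseq, wstep]
    split_ifs with h
    · exact h
    · exact (Ext_step ih).resolve_left h

theorem wseq_length (n : ℕ) (c : ℕ → Fin 2) (l : ℕ) : (wseq n c l).length = l := by
  induction l with
  | zero => rfl
  | succ l ih =>
    simp only [wseq, wstep]
    split_ifs <;> simp [ih]

theorem wseq_succ (n : ℕ) (c : ℕ → Fin 2) (l : ℕ) :
    wseq n c (l + 1) = wseq n c l ++ [yy n c l] := by
  have h1 : ∃ d, wseq n c (l + 1) = wseq n c l ++ [d] := by
    simp only [wseq, wstep]
    split_ifs
    · exact ⟨0, rfl⟩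
    · exact ⟨1, rfl⟩
  obtain ⟨d, hd⟩ := h1
  have h2 : yy n c l = d := by
    rw [yy, hd, List.getElem?_append_right (by rw [wseq_length])]
    simp [wseq_length]
  rw [h2, hd]

theorem wseq_eq (n : ℕ) (c : ℕ → Fin 2) (l : ℕ) :
    wseq n c l = (List.range l).map (yy n c) := by
  induction l with
  | zero => rfl
  | succ l ih => rw [wseq_succ, ih, List.range_succ, List.map_append]; rfl

theorem wseq_get (n : ℕ) (c : ℕ → Fin 2) (l m : ℕ) (hm : m < l) :
    (wseq n c l)[m]? = some (yy n c m) := by
  rw [wseq_eq, List.getElem?_map, List.getElem?_range hm]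
  rfl

theorem Good_wseq (n : ℕ) (c : ℕ → Fin 2) (l : ℕ) : Good n c (wseq n c l) := by
  obtain ⟨u, _, hg⟩ := Ext_wseq n c l 0
  exact hg.of_append

theorem IP0_yy (n : ℕ) (c : ℕ → Fin 2) : IP0 n c (yy n c) := by
  intro l r N
  obtain ⟨K, h1, h2, h3⟩ := (Good_wseq n c l).2 r N
  refine ⟨K, h1, h2, ?_⟩
  intro st hst hs m hm
  exact h3 st hst hs m _ (wseq_get n c l m hm)

theorem UR_yy (n : ℕ) (c : ℕ → Fin 2) : UR (yy n c) := by
  intro l
  have h1 : ¬ Forb c (wseq n c l) := (Good_wseq n c l).1 [] (wseq n c l) [] (by simp)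
  obtain ⟨i, hi⟩ := not_Forb h1
  simp only [NE, not_forall, not_exists, not_and, not_not] at hi
  obtain ⟨L, N, hi⟩ := hi
  refine ⟨L, fun p => ?_⟩
  set S : List (List (Fin 2)) := wseq n c l :: Sseq c i with hS
  set Mx : ℕ := (S.map List.length).sum with hMx
  have hMle : ∀ w ∈ S, w.length ≤ Mx := by
    intro w hw
    exact List.single_le_sum (fun _ _ => Nat.zero_le _) _ (List.mem_map_of_mem hw)
  set V : ℕ := p + L + Mx with hV
  obtain ⟨K, hK1, hK2, hK3⟩ := (Good_wseq n c V).2 1 N
  obtain ⟨k, rfl⟩ := List.length_eq_one_iff.1 hK1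
  have hkN : N ≤ k := (hK2 k (by simp)).1
  have hocc : occ c (wseq n c V) k := by
    have := hK3 (1, k) (by simp [subs]) (by simp)
    exact this
  obtain ⟨q, hq, w', hw', hocc'⟩ := hi (k + p) (by omega)
  have hval : ∀ m z, w'[m]? = some z → z = yy n c (p + q + m) := by
    intro m z hz
    have hm : m < w'.length := by
      by_contra hcon
      rw [List.getElem?_eq_none (by omega)] at hz
      simp at hz
    have h2 := hMle w' hw'
    have h3 := hocc' m z hz
    have h4 := hocc (p + q + m) _ (wseq_get n c V (p + q + m) (by omega))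
    rw [← h3, ← h4]
    congr 1
    omega
  have hw'eq : w' = wseq n c l := by
    rcases List.mem_cons.1 hw' with h | h
    · exact h
    · exfalso
      have h2 := hMle w' hw'
      have h3 : w' = ((wseq n c V).drop (p + q)).take w'.length := by
        apply List.ext_getElem?
        intro m
        rcases lt_or_ge m w'.length with hm | hm
        · rw [List.getElem?_take_of_lt hm, List.getElem?_drop,
            wseq_get n c V _ (by omega)]
          rw [List.getElem?_eq_getElem hm]
          rw [hval m w'[m] (List.getElem?_eq_getElem hm)]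
        · rw [List.getElem?_eq_none hm, List.getElem?_eq_none]
          exact (List.length_take_le _ _).trans hm
      have h4 : wseq n c V = (wseq n c V).take (p + q) ++ w' ++
          ((wseq n c V).drop (p + q)).drop w'.length := by
        conv_lhs => rw [← List.take_append_drop (p + q) (wseq n c V),
          ← List.take_append_drop w'.length ((wseq n c V).drop (p + q)), ← h3]
        simp
      exact (Good_wseq n c V).1 _ _ _ h4 ⟨i, h⟩
  refine ⟨q, hq.le, ?_⟩
  intro m hm
  rw [hw'eq] at hval
  exact (hval m _ (wseq_get n c l m hm)).symm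

end Pool.Agent.HTn
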